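import Pool.Agent.Lib.MP_b5021c_nt.IfaceAM
import Pool.Agent.Lib.MP_b5021c_nt.B.H78.Den

/-!
# MP_b5021c_nt, all `θ`, K ODD, (O4), neutral cycles: the Hurwitz step, analysis (helper21)

`hurI`: `D` stable and multi-affine in the ports.  If `D` vanishes at a point of the closed polydisc
of the ports all of whose coordinates are in the open disc or equal to one (times a character), then
it vanishes at the character.
-/

namespace Pool.Agent.B5.KO21

set_option linter.unusedSectionVars false

open scoped LaurentPolynomial Topology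
open Polynomial Pool.Agent.B5

/-! ## Limits of functions without zeros -/

/-- A limit of functions without zeros in a disc has no isolated zero there. -/
theorem hurw {F : ℝ → ℂ → ℂ} (hc : Continuous fun p : ℝ × ℂ => F p.1 p.2)
    (hd : ∀ x, Differentiable ℂ (F x)) {τ0 : ℂ} {δ : ℝ} (hδ : 0 < δ)
    (hne : ∀ x, 0 < x → x < 1 → ∀ τ : ℂ, ‖τ - τ0‖ ≤ δ → F x τ ≠ 0)
    (hz : F 1 τ0 = 0) (hs : ∀ τ, ‖τ - τ0‖ = δ → F 1 τ ≠ 0) : False := by
  have hK : IsCompact (Metric.sphere τ0 δ) := isCompact_sphere _ _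
  have hcx : ∀ x, Continuous (F x) := fun x =>
    hc.comp (continuous_const.prodMk continuous_id)
  have hev : ∀ᶠ x in 𝓝 (1 : ℝ), ∀ τ ∈ Metric.sphere τ0 δ, ‖F x τ0‖ < ‖F x τ‖ := by
    refine hK.eventually_forall_of_forall_eventually fun τ hτ => ?_
    have h1 : Continuous fun p : ℝ × ℂ => ‖F p.1 τ0‖ :=
      (hc.comp (continuous_fst.prodMk continuous_const)).norm
    have h2 : Continuous fun p : ℝ × ℂ => ‖F p.1 p.2‖ := hc.norm
    refine h1.continuousAt.eventually_lt h2.continuousAt ?_
    change ‖F 1 τ0‖ < ‖F 1 τ‖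
    rw [hz, norm_zero, norm_pos_iff]
    exact hs τ (by rwa [Metric.mem_sphere, dist_eq_norm] at hτ)
  obtain ⟨x, hx, hx1⟩ := ((hev.filter_mono nhdsWithin_le_nhds).and
    (Ioo_mem_nhdsLT (zero_lt_one' ℝ))).exists
  have hne' : ∀ τ ∈ Metric.closedBall τ0 δ, F x τ ≠ 0 := by
    intro τ hτ
    exact hne x hx1.1 hx1.2 τ (by rwa [Metric.mem_closedBall, dist_eq_norm] at hτ)
  have hnon : (Metric.sphere τ0 δ).Nonempty := by
    refine ⟨τ0 + δ, ?_⟩
    rw [Metric.mem_sphere, dist_eq_norm, add_sub_cancel_left, Complex.norm_real,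
      Real.norm_of_nonneg hδ.le]
  obtain ⟨τ1, hτ1, hmin⟩ := hK.exists_isMinOn hnon (hcx x).norm.continuousOn
  have hlt := hx τ1 hτ1
  have hpos : 0 < ‖F x τ1‖ := lt_of_le_of_lt (norm_nonneg _) hlt
  have hcl : closure (Metric.ball τ0 δ) = Metric.closedBall τ0 δ := closure_ball τ0 hδ.ne'
  have hdc : DiffContOnCl ℂ (fun τ => (F x τ)⁻¹) (Metric.ball τ0 δ) := by
    apply DifferentiableOn.diffContOnCl
    rw [hcl]
    intro τ hτ
    exact ((hd x τ).inv (hne' τ hτ)).differentiableWithinAt
  have hle : ‖(F x τ0)⁻¹‖ ≤ ‖F x τ1‖⁻¹ := by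
    refine Complex.norm_le_of_forall_mem_frontier_norm_le Metric.isBounded_ball hdc ?_
      (subset_closure (Metric.mem_ball_self hδ))
    intro τ hτ
    rw [frontier_ball τ0 hδ.ne'] at hτ
    rw [norm_inv]
    exact inv_anti₀ hpos (hmin hτ)
  rw [norm_inv] at hle
  have h0 : 0 < ‖F x τ0‖ := norm_pos_iff.mpr (hne' τ0 (Metric.mem_closedBall_self hδ.le))
  have h1 := (inv_le_inv₀ h0 hpos).mp hle
  linarith

/-- The same, with the conclusion that the limit vanishes everywhere. -/
theorem hurw_all {F : ℝ → ℂ → ℂ} (hc : Continuous fun p : ℝ × ℂ => F p.1 p.2)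
    (hd : ∀ x, Differentiable ℂ (F x)) {τ0 : ℂ} {r : ℝ} (hr : 0 < r)
    (hne : ∀ x, 0 < x → x < 1 → ∀ τ : ℂ, ‖τ - τ0‖ < r → F x τ ≠ 0)
    (hz : F 1 τ0 = 0) (τ : ℂ) : F 1 τ = 0 := by
  have han : AnalyticOnNhd ℂ (F 1) Set.univ := fun w _ => (hd 1).analyticAt w
  have hev : ∀ᶠ w in 𝓝 τ0, F 1 w = 0 := by
    rcases (han τ0 (Set.mem_univ _)).eventually_eq_zero_or_eventually_ne_zero with h | h
    · exact h
    · exfalso
      rw [eventually_nhdsWithin_iff, Metric.eventually_nhds_iff] at h
      obtain ⟨ε, hε, h⟩ := h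
      obtain ⟨δ, hδ, hδ1, hδ2⟩ : ∃ δ : ℝ, 0 < δ ∧ δ < r ∧ δ < ε := by
        refine ⟨min r ε / 2, by positivity, ?_, ?_⟩
        · have := min_le_left r ε
          linarith [lt_min hr hε]
        · have := min_le_right r ε
          linarith [lt_min hr hε]
      refine hurw hc hd hδ (fun x h0 h1 w hw => hne x h0 h1 w (lt_of_le_of_lt hw hδ1)) hz ?_
      intro w hw
      refine h ?_ ?_
      · rw [dist_eq_norm, hw]; exact hδ2
      · intro h3
        rw [Set.mem_singleton_iff] at h3
        rw [h3, sub_self, norm_zero] at hw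
        exact hδ.ne hw
  exact han.eqOn_zero_of_preconnected_of_eventuallyEq_zero isPreconnected_univ
    (Set.mem_univ τ0) hev (Set.mem_univ τ)

/-- The zero of `kap - (1 - τ)^2`. -/
theorem kap_root {z : Circle} (hre : (z : ℂ).re ≠ 0) (him : (z : ℂ).im ≠ 0) :
    ∃ τ0 : ℂ, ‖τ0‖ < 1 ∧ (1 - τ0) ^ 2 = (z : ℂ)⁻¹ - z := by
  have hn : (z : ℂ).re ^ 2 + (z : ℂ).im ^ 2 = 1 := by
    have h1 := Circle.normSq_coe z
    rw [Complex.normSq_apply] at h1
    nlinarith
  have hzi : (z : ℂ)⁻¹ = (starRingEnd ℂ) (z : ℂ) := by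
    rw [← Circle.coe_inv, Circle.coe_inv_eq_conj]
  obtain ⟨s, hs⟩ : ∃ s, s = Real.sqrt |(z : ℂ).im| := ⟨_, rfl⟩
  have hs2 : s ^ 2 = |(z : ℂ).im| := by rw [hs]; exact Real.sq_sqrt (abs_nonneg _)
  have hs0 : 0 < s := by rw [hs]; exact Real.sqrt_pos.mpr (abs_pos.mpr him)
  have him1 : |(z : ℂ).im| < 1 := by
    have h1 : (z : ℂ).im ^ 2 < 1 := by
      have : 0 < (z : ℂ).re ^ 2 := by positivity
      linarith
    rw [abs_lt]
    constructor <;> nlinarith
  have hs1 : s < 1 := by
    have h1 : s ^ 2 < 1 := by rw [hs2]; exact him1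
    nlinarith
  have key : ∀ t : ℝ, t ^ 2 = 1 → (z : ℂ).im = -(t * |(z : ℂ).im|) →
      ∃ τ0 : ℂ, ‖τ0‖ < 1 ∧ (1 - τ0) ^ 2 = (z : ℂ)⁻¹ - z := by
    intro t ht hti
    refine ⟨⟨1 - s, -(t * s)⟩, ?_, ?_⟩
    · have h1 : ‖(⟨1 - s, -(t * s)⟩ : ℂ)‖ ^ 2 < 1 := by
        rw [← Complex.normSq_eq_norm_sq, Complex.normSq_apply]
        change (1 - s) * (1 - s) + -(t * s) * -(t * s) < 1
        have h2 : -(t * s) * -(t * s) = s ^ 2 := by
          have : -(t * s) * -(t * s) = t ^ 2 * s ^ 2 := by ring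
          rw [this, ht, one_mul]
        rw [h2]
        nlinarith
      have h2 := norm_nonneg (⟨1 - s, -(t * s)⟩ : ℂ)
      nlinarith
    · have h1 : (1 : ℂ) - ⟨1 - s, -(t * s)⟩ = ⟨s, t * s⟩ := by
        apply Complex.ext
        · change (1 : ℂ).re - (1 - s) = s
          rw [Complex.one_re]; ring
        · change (1 : ℂ).im - -(t * s) = t * s
          rw [Complex.one_im]; ring
      rw [h1, hzi, sq]
      apply Complex.ext
      · rw [Complex.mul_re, Complex.sub_re, Complex.conj_re, sub_self]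
        change s * s - t * s * (t * s) = 0
        have : t * s * (t * s) = t ^ 2 * (s * s) := by ring
        rw [this, ht]; ring
      · rw [Complex.mul_im, Complex.sub_im, Complex.conj_im]
        change s * (t * s) + t * s * s = -(z : ℂ).im - (z : ℂ).im
        have : s * (t * s) + t * s * s = 2 * (t * s ^ 2) := by ring
        rw [this, hs2]
        linarith
  rcases le_total 0 (z : ℂ).im with h | h
  · exact key (-1) (by norm_num) (by rw [abs_of_nonneg h]; ring)
  · exact key 1 (by norm_num) (by rw [abs_of_nonpos h]; ring)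

/-! ## Port variables -/

section

variable {P : Type} [Fintype P] [DecidableEq P] {L : Type} [AddCommGroup L] [Module.Free ℤ L]
  [Module.Finite ℤ L]

/-- No zeros in the polydisc of the ports. -/
theorem mev_ne (hMu : MultiS) (hSS : StSpecS) {phi : L →+ (P → ℤ)} {D : AO ℤ L}
    (hinj : Function.Injective phi) (hbin : ∀ a ∈ supp D, Bin phi a) (hst : Stable D) {z : Circle}
    (hz : evR z (D.coeff 0) ≠ 0) (u : AddChar L Circle) {t : P → ℂ} (ht : ∀ p, ‖t p‖ < 1) :
    mev u (fun q => co phi q) t (spec z D) ≠ 0 := by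
  have hC : StableC (spec z D) := (hSS ℤ L D).1 hst z hz
  have hsub : ∀ a ∈ (spec z D).coeff.support, a ∈ supp D := by
    intro a ha h0
    rw [Finsupp.mem_support_iff, spec_coeff] at ha
    exact ha (by rw [h0, map_zero])
  refine hMu L (spec z D) hC P (fun q => co phi q) ?_ ?_ u t ht
  · intro i a ha
    have h1 : co phi i a = phi a i := rfl
    rw [h1]
    rcases hbin a (hsub a ha) i with h | h <;> rw [h]
    norm_num
  · intro a ha ha0
    have hb := hbin a (hsub a ha)
    have hnn : ∀ i ∈ (Finset.univ : Finset P), 0 ≤ co phi i a := by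
      intro i _
      have h1 : co phi i a = phi a i := rfl
      rw [h1]
      rcases hb i with h | h <;> rw [h]
      norm_num
    obtain ⟨i, hi⟩ : ∃ i, phi a i ≠ 0 := by
      by_contra hcon
      push Not at hcon
      apply ha0
      apply hinj
      rw [map_zero]
      funext i
      exact hcon i
    have hpos : 0 < co phi i a := by
      have h1 : co phi i a = phi a i := rfl
      rw [h1]
      rcases hb i with h | h
      · exact absurd h hi
      · rw [h]; norm_num
    exact lt_of_lt_of_le hpos (Finset.single_le_sum hnn (Finset.mem_univ i))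

/-- The value at one. -/
theorem mev_one {phi : L →+ (P → ℤ)} {D : AO ℤ L} {z : Circle} {u : AddChar L Circle}
    {t : P → ℂ} (ht : ∀ p, t p = 1) :
    mev u (fun q => co phi q) t (spec z D) = ev z u D := by
  change _ = evC u (spec z D)
  rw [evC_apply]
  unfold mev
  refine Finsupp.sum_congr fun a _ => ?_
  have h1 : ∏ i, t i ^ (co phi i a).toNat = 1 := Finset.prod_eq_one fun i _ => by
    rw [ht i, one_pow]
  rw [h1, mul_one]

open Classical in
/-- THE HURWITZ PRINCIPLE for `D`. -/
theorem hurI (hMu : MultiS) (hSS : StSpecS) {phi : L →+ (P → ℤ)} {D : AO ℤ L}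
    (hinj : Function.Injective phi) (hbin : ∀ a ∈ supp D, Bin phi a) (hst : Stable D) {z : Circle}
    (hz : evR z (D.coeff 0) ≠ 0) (u : AddChar L Circle) {t0 : P → ℂ}
    (ht : ∀ p, ‖t0 p‖ < 1 ∨ t0 p = 1)
    (h0 : mev u (fun q => co phi q) t0 (spec z D) = 0) : ev z u D = 0 := by
  -- the family
  obtain ⟨t, htd⟩ : ∃ t : ℝ → ℂ → P → ℂ, ∀ x τ p, t x τ p =
      if t0 p = 1 then (x : ℂ) else t0 p + τ * (1 - t0 p) := ⟨_, fun _ _ _ => rfl⟩
  obtain ⟨r, hr, hrp⟩ : ∃ r : ℝ, 0 < r ∧ ∀ p, t0 p ≠ 1 → ‖t0 p‖ + r * 2 ≤ 1 := by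
    by_cases hne : (Finset.univ.filter fun p : P => t0 p ≠ 1).Nonempty
    · obtain ⟨p0, hp0, hmin⟩ := Finset.exists_min_image _ (fun p => (1 - ‖t0 p‖) / 2) hne
      rw [Finset.mem_filter] at hp0
      refine ⟨(1 - ‖t0 p0‖) / 2, ?_, ?_⟩
      · rcases ht p0 with h | h
        · linarith
        · exact absurd h hp0.2
      · intro p hp
        have := hmin p (Finset.mem_filter.mpr ⟨Finset.mem_univ p, hp⟩)
        linarith
    · refine ⟨1, one_pos, fun p hp => ?_⟩
      exact absurd ⟨p, Finset.mem_filter.mpr ⟨Finset.mem_univ p, hp⟩⟩ hne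
  have hF : ∀ τ : ℂ, mev u (fun q => co phi q) (t 1 τ) (spec z D) = 0 := by
    refine hurw_all (F := fun x τ => mev u (fun q => co phi q) (t x τ) (spec z D)) (τ0 := 0)
      (r := r) ?_ ?_ hr ?_ ?_
    · unfold mev
      simp only [Finsupp.sum]
      refine continuous_finsetSum _ fun a _ => ?_
      refine continuous_const.mul ?_
      refine continuous_finsetProd _ fun q _ => ?_
      refine Continuous.pow ?_ _
      simp only [htd]
      split_ifs
      · exact Complex.continuous_ofReal.comp continuous_fst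
      · exact continuous_const.add (continuous_snd.mul continuous_const)
    · intro x
      unfold mev
      simp only [Finsupp.sum]
      refine Differentiable.fun_sum fun a _ => ?_
      refine (differentiable_const _).mul ?_
      refine Differentiable.fun_finsetProd fun q _ => ?_
      refine Differentiable.pow ?_ _
      simp only [htd]
      split_ifs
      · exact differentiable_const _
      · exact (differentiable_const _).add (differentiable_id.mul (differentiable_const _))
    · intro x hx0 hx1 τ hτ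
      rw [sub_zero] at hτ
      refine mev_ne hMu hSS hinj hbin hst hz u fun p => ?_
      rw [htd]
      split_ifs with hp
      · rwa [Complex.norm_real, Real.norm_of_nonneg hx0.le]
      · have h1 := hrp p hp
        have h2 : ‖t0 p‖ < 1 := (ht p).resolve_right hp
        have h3 : ‖(1 : ℂ) - t0 p‖ ≤ 1 + ‖t0 p‖ := by
          have := norm_sub_le (1 : ℂ) (t0 p)
          rwa [norm_one] at this
        have h4 : ‖t0 p + τ * (1 - t0 p)‖ ≤ ‖t0 p‖ + ‖τ‖ * ‖1 - t0 p‖ := by
          refine (norm_add_le _ _).trans ?_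
          rw [norm_mul]
        have h5 : ‖τ‖ * ‖1 - t0 p‖ < r * 2 := by
          have h6 : ‖τ‖ * ‖1 - t0 p‖ ≤ ‖τ‖ * (1 + ‖t0 p‖) :=
            mul_le_mul_of_nonneg_left h3 (norm_nonneg _)
          have h7 : ‖τ‖ * (1 + ‖t0 p‖) ≤ ‖τ‖ * 2 :=
            mul_le_mul_of_nonneg_left (by linarith) (norm_nonneg _)
          have h8 : ‖τ‖ * 2 < r * 2 := by linarith
          linarith
        linarith
    · have h1 : t 1 0 = t0 := by
        funext p
        rw [htd]
        split_ifs with hp
        · rw [hp, Complex.ofReal_one]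
        · rw [zero_mul, add_zero]
      change mev u (fun q => co phi q) (t 1 0) (spec z D) = 0
      rw [h1]
      exact h0
  rw [← hF 1]
  refine (mev_one fun p => ?_).symm
  rw [htd]
  split_ifs with hp
  · rw [Complex.ofReal_one]
  · ring

end

end Pool.Agent.B5.KO21
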