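import Pool.Agent.Lib.MP_b5021c_nt.E2.H80.Psz2
import Pool.Agent.Lib.MP_b5021c_nt.E2.H65.Tro
import Pool.Agent.Lib.MP_b5021c_nt.E1.H80.Snr
import Pool.Agent.Lib.MP_b5021c_nt.B.H76.E1Cf0

/-!
# Board b5, K ODD, cycles of length 3: the count of the terminal case (helper21)

`D` = the closing of `D^` at the load `1` of a ray of a terminal 3-cycle, `V = -zf` = its load of
type A (value one), `Q = q`: `Q = D_0 + V`, so `2 Re (Q / V) - 1 = (masses of D) + 2`.  With two more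
masses `1` the last page of `trez` gives `rank + 3 ≤ 2 θ`.
-/

namespace Pool.Agent.B5.KO21

open scoped LaurentPolynomial Topology
open Polynomial Pool.Agent.B5 Pool.Agent.B5.Nr
open Pool.Agent.B5.H65 (pmn_sum rsh_coeff0)

/-- The constant coefficient of a non-negative element is non-negative. -/
theorem c0_nn {L : Type} [AddCommGroup L] [Module.Free ℤ L] [Module.Finite ℤ L] {T : AO ℤ L}
    (hT : Npos T) (z : Circle) : 0 ≤ (evR z (T.coeff 0)).re := by
  have h1 := (H76.e1r_cf0 _ (Nr.Snr.cT T) (Nr.Snr.cT_NP hT)).1 z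
  rwa [Nr.Snr.cT_zero] at h1

/-- The Poisson mean of the constant two. -/
theorem pmn_two (hPmf : PmfS) {a : ℂ} (ha : ‖a‖ < 1) : pmn a (2 : RO ℤ) = 2 := by
  have h2 : rsh (2 : RO ℤ) = 2 := map_ofNat _ 2
  obtain ⟨r, hr0, -, hr1, hr2⟩ := hPmf ℤ (2 : RO ℤ) a ha h2
  have h3 : r = C 2 := by
    ext n
    rcases n with _ | n
    · rw [hr0, coeff_C_zero]
      have h4 : ((2 : RO ℤ).coeff 0 : ℤ) = 2 := by
        have h5 : (2 : RO ℤ) = LaurentPolynomial.C 2 := (map_ofNat LaurentPolynomial.C 2).symm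
        rw [h5, LaurentPolynomial.C_apply]
        simp
      rw [h4]
      change ((Int.castRingHom ℂ) 2 : ℂ) = 2
      norm_num
    · rw [hr2 n, coeff_C_succ]
      have h4 : ((2 : RO ℤ).coeff ((n : ℤ) + 1) : ℤ) = 0 := by
        have h5 : (2 : RO ℤ) = LaurentPolynomial.C 2 := (map_ofNat LaurentPolynomial.C 2).symm
        rw [h5, LaurentPolynomial.C_apply]
        have h6 : ¬ ((n : ℤ) + 1 = 0) := by omega
        simp [h6]
      rw [h4, map_zero, mul_zero]
  rw [hr1, h3, eval_C]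
  norm_num

/-- (TERC) the count of the terminal case. -/
theorem ter_count (hTrm : TrmS) (hPsz : PszRS) (hPmf : PmfS) (hSnr : Nr.SnrS) (hEv : EvRS)
    {P L : Type} [Fintype P] [DecidableEq P] [AddCommGroup L] [Module.Free ℤ L]
    [Module.Finite ℤ L] {phi : L →+ (P → ℤ)} {D : AO ℤ L} {S : L} {eta : (RO ℤ)ˣ} {θB θ : ℝ}
    {Q V : RO ℤ} (hDD : DD phi D) (hrk : 2 ≤ Module.finrank ℤ L) (hS : Ray D S)
    (hPB : ClassP θB (D.coeff 0)) (hV : V = D.coeff 0 + (eta : RO ℤ) * D.coeff S)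
    (hA : TypA 1 (D.coeff 0) V) (hQ : Q = D.coeff 0 + V) (hθ : 2 ≤ θ) (hP : ClassP θ Q)
    (hQ0 : ∀ z : Circle, evR z Q ≠ 0) (hodd : Odd (Module.finrank ℤ L)) :
    (Module.finrank ℤ L : ℝ) + 3 ≤ 2 * θ := by
  obtain ⟨hEv1, hEv2, hEv3, hEv4⟩ := hEv ℤ
  obtain ⟨i0, n, f, T, hT0, hTn, hrank, hsum⟩ := hTrm ℤ P L phi D S eta θB hDD hrk hS hPB
    (by rw [← hV]; exact hA)
  rw [← hV] at hsum
  set r : RO ℤ := ∑ i, (T i).coeff 0 + 2 with hr
  have hAQ : TypA 1 Q V := by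
    obtain ⟨k, q, e, h1, h2, h3, h4, h5⟩ := hA
    refine ⟨k, q + Polynomial.X * e, e, ?_, h2, ?_, h4, h5⟩
    · rw [hQ, h1, h2, map_add, map_mul, toLaurent_X, LaurentPolynomial.T_add]
      ring
    · rw [coeff_add, mul_coeff_zero, coeff_X_zero, zero_mul, add_zero]
      exact h3
  have hrB : ∀ z : Circle, 0 ≤ (evR z (∑ i, (T i).coeff 0)).re := by
    intro z
    rw [map_sum, Complex.re_sum]
    exact Finset.sum_nonneg fun i _ => c0_nn (hTn i) z
  have hrQ : ∀ z : Circle, evR z V ≠ 0 → (evR z r).re = 2 * (evR z Q / evR z V).re - 1 := by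
    intro z hz
    have h1 := hsum z hz
    have h2 : evR z Q / evR z V = evR z (D.coeff 0) / evR z V + 1 := by
      rw [hQ, map_add, add_div, div_self hz]
    have h3 : (evR z (2 : RO ℤ)) = 2 := map_ofNat (evR z) 2
    rw [hr, map_add, Complex.add_re, h1, h2, Complex.add_re, h3]
    norm_num
    ring
  have hVQ : ∀ z : Circle, ‖evR z (V - Q)‖ ≤ ‖evR z Q‖ := by
    intro z
    by_cases hz : evR z V = 0
    · have h1 : evR z (V - Q) = -evR z Q := by rw [map_sub, hz, zero_sub]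
      rw [h1, norm_neg]
    · have h1 := hrQ z hz
      have h2 : 2 ≤ (evR z r).re := by
        have h3 := hrB z
        have h4 : (evR z (2 : RO ℤ)) = 2 := map_ofNat (evR z) 2
        have h9 : ((2 : ℂ)).re = 2 := rfl
        rw [hr, map_add, Complex.add_re, h4, h9]
        linarith
      have hne : (0 : ℝ) < ‖evR z V‖ := norm_pos_iff.mpr hz
      have h5 : evR z (V - Q) = evR z V * (1 - evR z Q / evR z V) := by
        rw [map_sub, mul_sub, mul_one, mul_div_cancel₀ _ hz]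
      have h6 : evR z Q = evR z V * (evR z Q / evR z V) := by
        rw [mul_div_cancel₀ _ hz]
      set s : ℂ := evR z Q / evR z V with hs
      rw [h5, h6, norm_mul, norm_mul]
      refine mul_le_mul_of_nonneg_left ?_ hne.le
      have h7 : ‖1 - s‖ ^ 2 ≤ ‖s‖ ^ 2 := by
        rw [← Complex.normSq_eq_norm_sq, ← Complex.normSq_eq_norm_sq, Complex.normSq_apply,
          Complex.normSq_apply]
        simp only [Complex.sub_re, Complex.one_re, Complex.sub_im, Complex.one_im, zero_sub]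
        nlinarith
      exact (pow_le_pow_iff_left₀ (norm_nonneg _) (norm_nonneg _) two_ne_zero).mp h7
  have hrs : rsh r = r := by
    rw [hr, map_add, map_sum, map_ofNat]
    congr 1
    exact Finset.sum_congr rfl fun i _ => rsh_coeff0 (T i) (hTn i).1
  obtain ⟨a, m, t, ha, hpar, hmain⟩ := hPsz θ Q V r hP hQ0 hAQ hVQ hrs hrQ
  have hθ0 : (0 : ℝ) < θ := by linarith
  have ha2 : |a| ≤ 1 / 2 := by
    rw [ha, inv_eq_one_div]
    exact one_div_le_one_div_of_le (by norm_num) hθ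
  have hna : ‖(a : ℂ)‖ = |a| := by rw [Complex.norm_real, Real.norm_eq_abs]
  have ha1 : ‖(a : ℂ)‖ < 1 := by rw [hna]; linarith
  have ha0 : 0 ≤ |a| := abs_nonneg a
  have hpr : pmn (a : ℂ) r = 2 + ∑ i, pmn (a : ℂ) ((T i).coeff 0) := by
    have h1 : r = ∑ i : Fin (n + 1), (Fin.cons (2 : RO ℤ) fun i : Fin n => (T i).coeff 0 :
        Fin (n + 1) → RO ℤ) i := by
      rw [Fin.sum_univ_succ, hr, add_comm]
      simp only [Fin.cons_zero, Fin.cons_succ]
    rw [h1, pmn_sum hEv1 (a : ℂ) ha1, Fin.sum_univ_succ]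
    simp only [Fin.cons_zero, Fin.cons_succ]
    rw [pmn_two hPmf ha1]
  rw [hpr] at hmain
  have hsn : ∀ i, 1 + (rk (supp (T i)) : ℝ) ≤ pmn (a : ℂ) ((T i).coeff 0) := fun i =>
    (hSnr (Ker (f i)) (T i) a ha2 (hT0 i) (hTn i)).1
  -- the constant coefficients
  have hc0 : ∀ i, 1 + (rk (supp (T i)) : ℤ) ≤ ((T i).coeff 0).coeff 0 := by
    intro i
    have h1 := (hSnr (Ker (f i)) (T i) 0 (by norm_num) (hT0 i) (hTn i)).1
    rw [Complex.ofReal_zero] at h1
    obtain ⟨r, hr0, -, hr1, -⟩ := hPmf ℤ ((T i).coeff 0) 0 (by norm_num)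
      (rsh_coeff0 (T i) (hTn i).1)
    rw [hr1, ← Polynomial.coeff_zero_eq_eval_zero, hr0] at h1
    have h2 : (Coef.emb (((T i).coeff 0).coeff 0) : ℂ) = ((((T i).coeff 0).coeff 0 : ℤ) : ℂ) := by
      change (Int.castRingHom ℂ) _ = _
      exact eq_intCast _ _
    rw [h2, Complex.intCast_re] at h1
    exact_mod_cast h1
  have hr0 : r.coeff 0 = ∑ i, ((T i).coeff 0).coeff 0 + 2 := by
    have h4 : ((2 : RO ℤ).coeff 0 : ℤ) = 2 := by
      have h5 : (2 : RO ℤ) = LaurentPolynomial.C 2 := (map_ofNat LaurentPolynomial.C 2).symm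
      rw [h5, LaurentPolynomial.C_apply]
      simp
    rw [hr, AddMonoidAlgebra.coeff_add, Finsupp.add_apply, h4]
    congr 1
    simp
  rw [hr0] at hpar
  have h2θ : 2 * (θ - θ⁻¹) = 2 * θ - 2 * |a| := by rw [ha]; ring
  rw [h2θ] at hmain
  have hfr : (1 - 2 * |a|) ≤ (1 - |a|) / (1 + |a|) := by
    rw [le_div_iff₀ (by linarith)]
    nlinarith
  have hm0 : (0 : ℝ) ≤ (m : ℝ) := Nat.cast_nonneg m
  have hfr0 : 0 ≤ (1 - |a|) / (1 + |a|) := div_nonneg (by linarith) (by linarith)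
  have h6 : ∑ i, (1 + (rk (supp (T i)) : ℝ)) ≤ ∑ i, pmn (a : ℂ) ((T i).coeff 0) :=
    Finset.sum_le_sum fun i _ => hsn i
  set Sg : ℕ := ∑ i, (1 + rk (supp (T i))) with hSg
  have hSgR : ∑ i, (1 + (rk (supp (T i)) : ℝ)) = (Sg : ℝ) := by
    rw [hSg]; push_cast; rfl
  have hSgZ : ∑ i, (1 + (rk (supp (T i)) : ℤ)) = (Sg : ℤ) := by
    rw [hSg]; push_cast; rfl
  rw [hSgR] at h6
  rcases Nat.lt_or_ge Sg (Module.finrank ℤ L) with hlt | hge
  · have hd : Module.finrank ℤ L = 1 + Sg := by omega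
    have hdR : (Module.finrank ℤ L : ℝ) = 1 + (Sg : ℝ) := by rw [hd]; push_cast; rfl
    rcases Nat.eq_zero_or_pos m with hm | hm
    · -- m = 0
      have h7 : ∃ i, 2 + (rk (supp (T i)) : ℤ) ≤ ((T i).coeff 0).coeff 0 := by
        by_contra hno
        push Not at hno
        have h8 : ∑ i, ((T i).coeff 0).coeff 0 = ∑ i, (1 + (rk (supp (T i)) : ℤ)) := by
          refine Finset.sum_congr rfl fun i _ => ?_
          have h9 := hno i
          have h10 := hc0 i
          omega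
        rw [h8, hSgZ, hm] at hpar
        obtain ⟨k, hk⟩ := hodd
        omega
      obtain ⟨i, hi⟩ := h7
      have h8 := (hSnr (Ker (f i)) (T i) a ha2 (hT0 i) (hTn i)).2 hi
      have h9 : (Sg : ℝ) + (1 - 2 * |a|) ≤ ∑ j, pmn (a : ℂ) ((T j).coeff 0) := by
        rw [← hSgR, ← Finset.add_sum_erase Finset.univ _ (Finset.mem_univ i),
          ← Finset.add_sum_erase Finset.univ (fun j => pmn (a : ℂ) ((T j).coeff 0)) (Finset.mem_univ i)]
        have h11 : ∑ j ∈ Finset.univ.erase i, (1 + (rk (supp (T j)) : ℝ)) ≤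
            ∑ j ∈ Finset.univ.erase i, pmn (a : ℂ) ((T j).coeff 0) :=
          Finset.sum_le_sum fun j _ => hsn j
        linarith
      rw [hm, Nat.cast_zero, mul_zero] at hmain
      linarith
    · have hm1 : (1 : ℝ) ≤ (m : ℝ) := by exact_mod_cast hm
      have h7 : (1 - |a|) / (1 + |a|) * 1 ≤ (1 - |a|) / (1 + |a|) * (m : ℝ) :=
        mul_le_mul_of_nonneg_left hm1 hfr0
      linarith
  · have h7 : (Module.finrank ℤ L : ℝ) ≤ (Sg : ℝ) := by exact_mod_cast hge
    have h8 : 0 ≤ (1 - |a|) / (1 + |a|) * (m : ℝ) := mul_nonneg hfr0 hm0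
    linarith

end Pool.Agent.B5.KO21
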