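import Pool.Agent.Lib.MP_b5021c_nt.KO.H21.HurE
import Pool.Agent.Lib.MP_b5021c_nt.KO.H12.Ter

/-!
# MP_b5021c_nt, all `θ`, K ODD, (O4), ALPHA: `TerC` of `E^A` or of `V''` is impossible (helper21)

The row R6 for disjoint cycles (any length of the first cycle): `r6_a`, `r6_v`, `r6_m`.
-/

namespace Pool.Agent.B5.KO21

set_option linter.unusedSectionVars false

open scoped LaurentPolynomial Topology
open Polynomial Pool.Agent.B5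
open Pool.Agent.B5.KO.H71
open Pool.Agent.B5.KO57 (TerC)
open Pool.Agent.B5.KO.H96 (Alp)

section

variable {P : Type} [Fintype P] [DecidableEq P] {L : Type} [AddCommGroup L] [Module.Free ℤ L]
  [Module.Finite ℤ L] {phi : L →+ (P → ℤ)} {D : AO ℤ L}

/-- helper57's terminal form is helper12's. -/
theorem terC_of57 {r : ZMod 3 → L} {e : ZMod 3 → (RO ℤ)ˣ} {mu : ZMod 3 → L →+ ℤ}
    (T : Tri phi D r e mu) (h : TerC phi D r e mu) : KO12.TerC phi D r e mu := by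
  refine ⟨T, fun b hb hm => ?_, fun u hu => ?_⟩
  · rcases h.2 b hb hm with h1 | ⟨u, hu, h1⟩
    · exact Or.inl h1
    · right
      have h2 : b - (r 0 + (r 1 + r 2)) = u := by rw [h1]; abel
      rw [h2]
      exact hu
  · have h1 := h.1 u hu
    have h2 : u + (r 0 + (r 1 + r 2)) = u + r 2 + r 0 + r 1 := by abel
    rw [h2, ← h1]
    ring

variable {q f f' : ℤ[X]} {a : ℝ} {j : ℕ} {eta : L → (RO ℤ)ˣ} {k : ℕ}

/-- `D` is not terminal at the second cycle. -/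
theorem r6_end (hTrm : TrmS) (hPsz : Nr.PszRS) (hPmf : PmfS) (hSnr : Nr.SnrS) (hEv : EvRS)
    (hE2 : E2S) (hF1 : F1S) (hSf : SfzS) (hMV : MVS) (hMm : MmulS) (hE1 : E1S) (hPc : PCZS)
    (hClp : ClpS) (hFD : FDS)
    {Z : ZMod (k + 3) → L} {mu : ZMod (k + 3) → L →+ ℤ} {Z' : ZMod 3 → L}
    {mu' : ZMod 3 → L →+ ℤ} (A : Alp phi D q f f' a j eta k 0 Z mu Z' mu')
    (h : TerC phi D Z' (fun l => eta (Z' l)) mu') : False :=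
  KO12.ter_false hTrm hPsz hPmf hSnr hEv hE2 hF1 hSf hMV hMm hE1 hPc hClp hFD A.w' A.u'
    ⟨0, rfl⟩ rfl (terC_of57 (KO.H96.Alp.tri' hE2 A) h)

/-- (R6, E^A) -/
theorem r6_a (hTrm : TrmS) (hPsz : Nr.PszRS) (hPmf : PmfS) (hSnr : Nr.SnrS) (hEv : EvRS)
    (hE2 : E2S) (hF1 : F1S) (hSf : SfzS) (hMV : MVS) (hMm : MmulS) (hE1 : E1S) (hPc : PCZS)
    (hClp : ClpS) (hFD : FDS) (hMu : MultiS) (hSS : StSpecS) (hCn : CnfS)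
    {Z : ZMod (k + 3) → L} {mu : ZMod (k + 3) → L →+ ℤ} {Z' : ZMod 3 → L}
    {mu' : ZMod 3 → L →+ ℤ} (A : Alp phi D q f f' a j eta k 0 Z mu Z' mu')
    (hd : ∀ i l p, phi (Z i) p = 0 ∨ phi (Z' l) p = 0) (i : ZMod (k + 3)) {i0 : P}
    {h0 : co phi i0 (Z i) = 1} {e : (RO ℤ)ˣ} (he : eta (Z i) * tA = e) {c : RO ℤ}
    {G : AO ℤ (Ker (co phi i0))} (hc : cl (co phi i0) (Z i) h0 e D = cst c * G)
    {phi1 : Ker (co phi i0) →+ (P → ℤ)} (hI1 : Function.Injective phi1)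
    (hb1 : ∀ b ∈ supp G, Bin phi1 b) {r1 : ZMod 3 → Ker (co phi i0)}
    {e1 : ZMod 3 → (RO ℤ)ˣ} {mu1 : ZMod 3 → Ker (co phi i0) →+ ℤ} (T1 : Tri phi1 G r1 e1 mu1)
    (hr : ∀ l, ∃ n : ℤ, (r1 l : L) = Z' l - n • Z i ∧ e1 l = eta (Z' l) * e ^ (-n))
    (hter : TerC phi1 G r1 e1 mu1) : False :=
  r6_end hTrm hPsz hPmf hSnr hEv hE2 hF1 hSf hMV hMm hE1 hPc hClp hFD A
    (hur_a hMu hSS hE2 hCn hF1 A (fun i => port_of A hd i) i he hc hI1 hb1 T1 hr hter)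

/-- (R6, V'') -/
theorem r6_v (hTrm : TrmS) (hPsz : Nr.PszRS) (hPmf : PmfS) (hSnr : Nr.SnrS) (hEv : EvRS)
    (hE2 : E2S) (hF1 : F1S) (hSf : SfzS) (hMV : MVS) (hMm : MmulS) (hE1 : E1S) (hPc : PCZS)
    (hClp : ClpS) (hFD : FDS) (hMu : MultiS) (hSS : StSpecS) (hCn : CnfS)
    {Z : ZMod (k + 3) → L} {mu : ZMod (k + 3) → L →+ ℤ} {Z' : ZMod 3 → L}
    {mu' : ZMod 3 → L →+ ℤ} (A : Alp phi D q f f' a j eta k 0 Z mu Z' mu')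
    (hd : ∀ i l p, phi (Z i) p = 0 ∨ phi (Z' l) p = 0) (i : ZMod (k + 3)) {i0 : P}
    {h0 : co phi i0 (Z i) = 1} {s t : (RO ℤ)ˣ} (hs : eta (Z i) * tA = s)
    (ht : eta (Z (i + 1)) * tC = t) {T : Ker (co phi i0)} (hT : (T : L) = Z (i + 1))
    {k1 : Ker (co phi i0) →+ ℤ} {h1 : k1 T = 1} {c : RO ℤ} {H : AO ℤ (Ker k1)}
    (hc : cl k1 T h1 t (cl (co phi i0) (Z i) h0 s D) = cst c * H)
    {phi2 : Ker k1 →+ (P → ℤ)} (hI2 : Function.Injective phi2)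
    (hb2 : ∀ b ∈ supp H, Bin phi2 b) {r1 : ZMod 3 → Ker (co phi i0)}
    {e1 : ZMod 3 → (RO ℤ)ˣ} {r2 : ZMod 3 → Ker k1} {e2 : ZMod 3 → (RO ℤ)ˣ}
    {mu2 : ZMod 3 → Ker k1 →+ ℤ} (T2 : Tri phi2 H r2 e2 mu2)
    (hr1 : ∀ l, ∃ n : ℤ, (r1 l : L) = Z' l - n • Z i ∧ e1 l = eta (Z' l) * s ^ (-n))
    (hr2 : ∀ l, ∃ n : ℤ, (r2 l : Ker (co phi i0)) = r1 l - n • T ∧ e2 l = e1 l * t ^ (-n))
    (hter : TerC phi2 H r2 e2 mu2) : False :=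
  r6_end hTrm hPsz hPmf hSnr hEv hE2 hF1 hSf hMV hMm hE1 hPc hClp hFD A
    (hur_v hMu hSS hE2 hCn hF1 A (fun i => port_of A hd i) i hs ht hT hc hI2 hb2 T2 hr1 hr2 hter)

/-- (R6, mirror of V'') -/
theorem r6_m (hTrm : TrmS) (hPsz : Nr.PszRS) (hPmf : PmfS) (hSnr : Nr.SnrS) (hEv : EvRS)
    (hE2 : E2S) (hF1 : F1S) (hSf : SfzS) (hMV : MVS) (hMm : MmulS) (hE1 : E1S) (hPc : PCZS)
    (hClp : ClpS) (hFD : FDS) (hMu : MultiS) (hSS : StSpecS) (hCn : CnfS)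
    {Z : ZMod (k + 3) → L} {mu : ZMod (k + 3) → L →+ ℤ} {Z' : ZMod 3 → L}
    {mu' : ZMod 3 → L →+ ℤ} (A : Alp phi D q f f' a j eta k 0 Z mu Z' mu')
    (hd : ∀ i l p, phi (Z i) p = 0 ∨ phi (Z' l) p = 0) (i : ZMod (k + 3)) {i0 : P}
    {h0 : co phi i0 (Z (i + 1)) = 1} {s t : (RO ℤ)ˣ} (hs : eta (Z (i + 1)) * tA = s)
    (ht : eta (Z i) * tC = t) {T : Ker (co phi i0)} (hT : (T : L) = Z i)
    {k1 : Ker (co phi i0) →+ ℤ} {h1 : k1 T = 1} {c : RO ℤ} {H : AO ℤ (Ker k1)}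
    (hc : cl k1 T h1 t (cl (co phi i0) (Z (i + 1)) h0 s D) = cst c * H)
    {phi2 : Ker k1 →+ (P → ℤ)} (hI2 : Function.Injective phi2)
    (hb2 : ∀ b ∈ supp H, Bin phi2 b) {r1 : ZMod 3 → Ker (co phi i0)}
    {e1 : ZMod 3 → (RO ℤ)ˣ} {r2 : ZMod 3 → Ker k1} {e2 : ZMod 3 → (RO ℤ)ˣ}
    {mu2 : ZMod 3 → Ker k1 →+ ℤ} (T2 : Tri phi2 H r2 e2 mu2)
    (hr1 : ∀ l, ∃ n : ℤ, (r1 l : L) = Z' l - n • Z (i + 1) ∧ e1 l = eta (Z' l) * s ^ (-n))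
    (hr2 : ∀ l, ∃ n : ℤ, (r2 l : Ker (co phi i0)) = r1 l - n • T ∧ e2 l = e1 l * t ^ (-n))
    (hter : TerC phi2 H r2 e2 mu2) : False :=
  r6_end hTrm hPsz hPmf hSnr hEv hE2 hF1 hSf hMV hMm hE1 hPc hClp hFD A
    (hur_m hMu hSS hE2 hCn hF1 A (fun i => port_of A hd i) i hs ht hT hc hI2 hb2 T2 hr1 hr2 hter)

end

end Pool.Agent.B5.KO21
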