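import Pool.Agent.Lib.MP_b5021c_nt.KO.H21.HurA

/-!
# MP_b5021c_nt, all `θ`, K ODD, (O4), neutral cycles: the Hurwitz step at a point (helper21)

`Z_0`, `Z_1` a mutual pair with the ports `i0`, `i1`; `K` a set of ports; `DK` the part of `D`
without ports of `K`.  If `DK = b (kap - (1 - y_0) (1 - y_1))`, `kap = 1/z - z`, at all points which
differ from `u` only in the ports `i0`, `i1`, then `D` vanishes at `u`.
-/

namespace Pool.Agent.B5.KO21

set_option linter.unusedSectionVars false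

open scoped LaurentPolynomial Topology
open Polynomial Pool.Agent.B5

section

variable {P : Type} [Fintype P] [DecidableEq P] {L : Type} [AddCommGroup L] [Module.Free ℤ L]
  [Module.Finite ℤ L]

/-- The functional of the ports of `K`. -/
def lamK (phi : L →+ (P → ℤ)) (K : Finset P) : L →+ ℤ := ∑ p ∈ K, co phi p

theorem lamK_apply (phi : L →+ (P → ℤ)) (K : Finset P) (a : L) :
    lamK phi K a = ∑ p ∈ K, phi a p := by
  unfold lamK
  rw [AddMonoidHom.finsetSum_apply]
  rfl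

theorem lamK_zero {phi : L →+ (P → ℤ)} {K : Finset P} {a : L} (ha : Bin phi a) :
    lamK phi K a = 0 ↔ ∀ p ∈ K, phi a p = 0 := by
  rw [lamK_apply]
  refine Finset.sum_eq_zero_iff_of_nonneg fun p _ => ?_
  rcases ha p with h | h <;> rw [h]
  norm_num

/-- The part without ports of `K`. -/
noncomputable def DK (phi : L →+ (P → ℤ)) (K : Finset P) (D : AO ℤ L) : AO ℤ L :=
  gpart (lamK phi K) 0 D

open Classical in
theorem DK_coeff (phi : L →+ (P → ℤ)) (K : Finset P) (D : AO ℤ L) (a : L) :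
    (DK phi K D).coeff a = if lamK phi K a = 0 then D.coeff a else 0 := by
  unfold DK gpart
  rw [AddMonoidAlgebra.coeff_ofCoeff, Finsupp.filter_apply]

/-- The values at the port variables `s0`, `s1`. -/
noncomputable def W2 (phi : L →+ (P → ℤ)) (G : AO ℤ L) (z : Circle) (u : AddChar L Circle)
    (i0 i1 : P) (s0 s1 : ℂ) : ℂ :=
  (spec z G).coeff.sum fun a c => c * (u a : ℂ) * (s0 ^ (phi a i0).toNat * s1 ^ (phi a i1).toNat)

/-- The port variables. -/
noncomputable def tK (K : Finset P) (i0 i1 : P) (s0 s1 : ℂ) : P → ℂ := fun p =>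
  if p ∈ K then 0 else if p = i0 then s0 else if p = i1 then s1 else 1

theorem tK_prod {K : Finset P} {i0 i1 : P} (h01 : i0 ≠ i1) (h0 : i0 ∉ K) (h1 : i1 ∉ K)
    (s0 s1 : ℂ) {n : P → ℕ} (hn : ∀ p ∈ K, n p = 0) :
    ∏ p, tK K i0 i1 s0 s1 p ^ n p = s0 ^ n i0 * s1 ^ n i1 := by
  have e : ∀ p, tK K i0 i1 s0 s1 p ^ n p =
      (if p = i0 then s0 else 1) ^ n p * (if p = i1 then s1 else 1) ^ n p := by
    intro p
    unfold tK
    by_cases hp : p ∈ K
    · rw [if_pos hp, hn p hp]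
      simp
    · rw [if_neg hp]
      by_cases hp0 : p = i0
      · subst hp0
        rw [if_pos rfl, if_neg h01]
        simp
      · by_cases hp1 : p = i1
        · subst hp1
          rw [if_neg hp0, if_pos rfl, if_neg hp0, one_pow, one_mul]
        · rw [if_neg hp0, if_neg hp1, if_neg hp0, one_pow, one_mul]
  have h2 : ∀ (i : P) (s : ℂ), ∏ p, (if p = i then s else 1) ^ n p = s ^ n i := by
    intro i s
    rw [Finset.prod_eq_single i]
    · rw [if_pos rfl]
    · intro b _ hb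
      rw [if_neg hb, one_pow]
    · intro h
      exact absurd (Finset.mem_univ i) h
  simp_rw [e]
  rw [Finset.prod_mul_distrib, h2, h2]

theorem spec_supp {G : AO ℤ L} {z : Circle} {a : L} (ha : a ∈ (spec z G).coeff.support) :
    a ∈ supp G := by
  intro h0
  rw [Finsupp.mem_support_iff, spec_coeff] at ha
  exact ha (by rw [h0, map_zero])

open Classical in
theorem mev_K {phi : L →+ (P → ℤ)} {D : AO ℤ L} (hbin : ∀ a ∈ supp D, Bin phi a) (z : Circle)
    (u : AddChar L Circle) {K : Finset P} {i0 i1 : P} (h01 : i0 ≠ i1) (h0 : i0 ∉ K) (h1 : i1 ∉ K)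
    (s0 s1 : ℂ) : mev u (fun p => co phi p) (tK K i0 i1 s0 s1) (spec z D) =
      W2 phi (DK phi K D) z u i0 i1 s0 s1 := by
  unfold W2 mev
  have hsub : (spec z (DK phi K D)).coeff.support ⊆ (spec z D).coeff.support := by
    intro a ha
    rw [Finsupp.mem_support_iff, spec_coeff, DK_coeff] at ha
    rw [Finsupp.mem_support_iff, spec_coeff]
    split_ifs at ha with h
    · exact ha
    · rw [map_zero] at ha
      exact absurd rfl ha
  rw [Finsupp.sum_of_support_subset _ hsub _ (fun a _ => by rw [zero_mul, zero_mul]), Finsupp.sum]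
  refine Finset.sum_congr rfl fun a ha => ?_
  have hb := hbin a (spec_supp ha)
  rw [spec_coeff, spec_coeff, DK_coeff]
  by_cases h : lamK phi K a = 0
  · rw [if_pos h]
    congr 1
    refine tK_prod h01 h0 h1 s0 s1 (n := fun p => (phi a p).toNat) fun p hp => ?_
    rw [(lamK_zero hb).mp h p hp]
    rfl
  · rw [if_neg h, map_zero, zero_mul, zero_mul]
    have h2 : ∃ p ∈ K, phi a p ≠ 0 := by
      by_contra hcon
      push Not at hcon
      exact h ((lamK_zero hb).mpr hcon)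
    obtain ⟨p, hp, hp1⟩ := h2
    have h3 : ∏ p, tK K i0 i1 s0 s1 p ^ (co phi p a).toNat = 0 := by
      apply Finset.prod_eq_zero (Finset.mem_univ p)
      have h4 : co phi p a = phi a p := rfl
      rw [h4, (hb p).resolve_left hp1]
      unfold tK
      rw [if_pos hp]
      simp
    rw [h3, mul_zero]

/-- Interpolation in one variable. -/
theorem interp {n : ℤ} (hn : n = 0 ∨ n = 1) (s : ℂ) :
    s ^ n.toNat = (1 + s) / 2 * (1 : ℂ) ^ n.toNat + (1 - s) / 2 * (-1 : ℂ) ^ n.toNat := by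
  rcases hn with rfl | rfl
  · simp; ring
  · simp; ring

theorem W2_interp {phi : L →+ (P → ℤ)} {G : AO ℤ L} (hbin : ∀ a ∈ supp G, Bin phi a) (z : Circle)
    (u : AddChar L Circle) (i0 i1 : P) (s0 s1 : ℂ) :
    W2 phi G z u i0 i1 s0 s1 =
      (1 + s0) / 2 * ((1 + s1) / 2 * W2 phi G z u i0 i1 1 1 +
        (1 - s1) / 2 * W2 phi G z u i0 i1 1 (-1)) +
      (1 - s0) / 2 * ((1 + s1) / 2 * W2 phi G z u i0 i1 (-1) 1 +
        (1 - s1) / 2 * W2 phi G z u i0 i1 (-1) (-1)) := by
  unfold W2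
  simp only [Finsupp.sum, Finset.mul_sum, ← Finset.sum_add_distrib]
  refine Finset.sum_congr rfl fun a ha => ?_
  have hb := hbin a (spec_supp ha)
  rw [interp (hb i0) s0, interp (hb i1) s1]
  ring

/-- A point of the torus. -/
theorem W2_circle {phi : L →+ (P → ℤ)} {G : AO ℤ L} (hbin : ∀ a ∈ supp G, Bin phi a) (z : Circle)
    (u : AddChar L Circle) (i0 i1 : P) (c0 c1 : Circle) :
    W2 phi G z u i0 i1 c0 c1 = ev z (twist (twist u (co phi i0) c0) (co phi i1) c1) G := by
  change _ = evC _ (spec z G)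
  rw [evC_apply]
  unfold W2
  refine Finsupp.sum_congr fun a ha => ?_
  have hb := hbin a (spec_supp ha)
  have hp : ∀ (i : P) (c : Circle),
      (c : ℂ) ^ (phi a i).toNat = ((c ^ (co phi i a) : Circle) : ℂ) := by
    intro i c
    have h1 : co phi i a = phi a i := rfl
    rw [h1]
    rcases hb i with h | h <;> rw [h] <;> simp
  change _ = (spec z G).coeff a *
    ((u a * c0 ^ (co phi i0 a) * c1 ^ (co phi i1 a) : Circle) : ℂ)
  rw [hp, hp, Circle.coe_mul, Circle.coe_mul]
  ring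

/-- THE HURWITZ STEP at a point `z`, `u`. -/
theorem hur_pt (hMu : MultiS) (hSS : StSpecS) {phi : L →+ (P → ℤ)} {D : AO ℤ L}
    (hinj : Function.Injective phi) (hbin : ∀ a ∈ supp D, Bin phi a) (hst : Stable D) {z : Circle}
    (hz : evR z (D.coeff 0) ≠ 0) (hre : (z : ℂ).re ≠ 0) (him : (z : ℂ).im ≠ 0)
    (u : AddChar L Circle) {K : Finset P} {i0 i1 : P} (h01 : i0 ≠ i1) (h0 : i0 ∉ K) (h1 : i1 ∉ K)
    {b y0 y1 : ℂ} (hy0 : ‖y0‖ = 1) (hy1 : ‖y1‖ = 1)
    (h : ∀ c0 c1 : Circle,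
      ev z (twist (twist u (co phi i0) c0) (co phi i1) c1) (DK phi K D) =
        b * (((z : ℂ)⁻¹ - z) - (1 - c0 * y0) * (1 - c1 * y1))) : ev z u D = 0 := by
  have hy0' : y0 ≠ 0 := by rw [← norm_pos_iff, hy0]; exact one_pos
  have hy1' : y1 ≠ 0 := by rw [← norm_pos_iff, hy1]; exact one_pos
  have hbK : ∀ a ∈ supp (DK phi K D), Bin phi a := by
    classical
    intro a ha
    refine hbin a fun h0 => ha ?_
    rw [DK_coeff, h0, ite_self]
  obtain ⟨τ0, hτ, hk⟩ := kap_root hre him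
  refine hurI hMu hSS hinj hbin hst hz u (t0 := tK K i0 i1 (τ0 / y0) (τ0 / y1)) ?_ ?_
  · intro p
    unfold tK
    split_ifs
    · left; rw [norm_zero]; exact one_pos
    · left; rwa [norm_div, hy0, div_one]
    · left; rwa [norm_div, hy1, div_one]
    · right; rfl
  · have hm : ((-1 : Circle) : ℂ) = -1 := by simp
    have e00 := h 1 1
    have e01 := h 1 (-1)
    have e10 := h (-1) 1
    have e11 := h (-1) (-1)
    rw [← W2_circle hbK] at e00 e01 e10 e11
    simp only [Circle.coe_one, hm] at e00 e01 e10 e11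
    rw [mev_K hbin z u h01 h0 h1, W2_interp hbK, e00, e01, e10, e11, ← hk]
    have ht0 : τ0 / y0 * y0 = τ0 := div_mul_cancel₀ τ0 hy0'
    have ht1 : τ0 / y1 * y1 = τ0 := div_mul_cancel₀ τ0 hy1'
    obtain ⟨s0, hs0⟩ : ∃ s0, s0 = τ0 / y0 := ⟨_, rfl⟩
    obtain ⟨s1, hs1⟩ : ∃ s1, s1 = τ0 / y1 := ⟨_, rfl⟩
    rw [← hs0] at ht0 ⊢
    rw [← hs1] at ht1 ⊢
    have e : (1 - τ0) ^ 2 = (1 - s0 * y0) * (1 - s1 * y1) := by rw [ht0, ht1]; ring
    rw [e]
    ring

end

end Pool.Agent.B5.KO21
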