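import Pool.Agent.Lib.MP_b5021c_nt.KO.H21.HurB
import Pool.Agent.Lib.MP_b5021c_nt.B.H36.Evr

/-!
# MP_b5021c_nt, all `θ`, K ODD, (O4), neutral cycles: the Hurwitz step (helper21)

`hur`: `Z` a cycle of length 3 or 4 of `D`.  A condition `Con` on the points which is not changed by
the functionals `mu 0`, `mu 1` and by the ports of the cycle (for instance: the values of the
monomials of a neutral triple, disjoint from `Z`, are `e^(i pi/3)` times the loads).  If the double
closing `(w^(Z 0), w^(Z 1)) = (- e_0/z, z e_1)` vanishes at all points with `Con`, then `D` vanishes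
at all points with `Con`.
-/

namespace Pool.Agent.B5.KO21

set_option linter.unusedSectionVars false

open scoped LaurentPolynomial Topology
open Polynomial Pool.Agent.B5

section

variable {P : Type} [Fintype P] [DecidableEq P] {L : Type} [AddCommGroup L] [Module.Free ℤ L]
  [Module.Finite ℤ L]

/-! ## Evaluations -/

theorem ev_eq (z : Circle) (u : AddChar L Circle) (G : AO ℤ L) :
    ev z u G = ∑ a ∈ G.coeff.support, evR z (G.coeff a) * (u a : ℂ) := by
  change evC u (spec z G) = _
  rw [evC_apply]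
  have hsub : (spec z G).coeff.support ⊆ G.coeff.support := by
    intro a ha
    exact Finsupp.mem_support_iff.mpr (spec_supp ha)
  refine (Finsupp.sum_of_support_subset _ hsub (fun a c => c * (u a : ℂ))
    (fun a _ => zero_mul _)).trans ?_
  refine Finset.sum_congr rfl fun a _ => ?_
  rw [spec_coeff]

theorem ev_single (z : Circle) (u : AddChar L Circle) (a : L) (p : RO ℤ) :
    ev z u (AddMonoidAlgebra.single a p : AO ℤ L) = evR z p * (u a : ℂ) := by
  classical
  rw [ev_eq]
  by_cases hp : p = 0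
  · rw [hp, AddMonoidAlgebra.single_zero, map_zero, zero_mul]
    rfl
  · have h1 : (AddMonoidAlgebra.single a p : AO ℤ L).coeff.support = {a} :=
      Finsupp.support_single a hp
    rw [h1, Finset.sum_singleton]
    have h2 : (AddMonoidAlgebra.single a p : AO ℤ L).coeff a = p := Finsupp.single_eq_same
    rw [h2]

theorem twist_apply (u : AddChar L Circle) (lam : L →+ ℤ) (s : Circle) (a : L) :
    twist u lam s a = u a * s ^ (lam a) := rfl

theorem ev_twist_inv {z : Circle} {u : AddChar L Circle} {G : AO ℤ L} {lam : L →+ ℤ}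
    (h : ∀ a ∈ supp G, lam a = 0) (s : Circle) : ev z (twist u lam s) G = ev z u G := by
  rw [ev_eq, ev_eq]
  refine Finset.sum_congr rfl fun a ha => ?_
  rw [twist_apply, h a (Finsupp.mem_support_iff.mp ha), zpow_zero, mul_one]

/-- The part of degree zero of a function which vanishes at all twists. -/
theorem ev_K {phi : L →+ (P → ℤ)} {D : AO ℤ L} (hbin : ∀ a ∈ supp D, Bin phi a) {z : Circle}
    {u : AddChar L Circle} {K : Finset P}
    (h : ∀ c : Circle, ev z (twist u (lamK phi K) c) D = 0) : ev z u (DK phi K D) = 0 := by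
  classical
  have hnn : ∀ a ∈ D.coeff.support, 0 ≤ lamK phi K a := by
    intro a ha
    rw [lamK_apply]
    refine Finset.sum_nonneg fun p _ => ?_
    rcases hbin a (Finsupp.mem_support_iff.mp ha) p with h | h <;> rw [h]
    norm_num
  obtain ⟨q, hq⟩ : ∃ q : ℂ[X], q = ∑ a ∈ D.coeff.support,
      Polynomial.monomial (lamK phi K a).toNat (evR z (D.coeff a) * (u a : ℂ)) := ⟨_, rfl⟩
  have hev : ∀ c : Circle, q.eval (c : ℂ) = 0 := by
    intro c
    rw [← h c, hq, eval_finsetSum, ev_eq]
    refine Finset.sum_congr rfl fun a ha => ?_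
    rw [eval_monomial, twist_apply, Circle.coe_mul]
    have h1 : ((c ^ (lamK phi K a) : Circle) : ℂ) = (c : ℂ) ^ (lamK phi K a).toNat := by
      obtain ⟨n, hn⟩ := Int.eq_ofNat_of_zero_le (hnn a ha)
      rw [hn, Int.toNat_natCast, zpow_natCast, Circle.coe_pow]
    rw [h1]
    ring
  have hq0 : q = 0 := by
    apply Polynomial.eq_zero_of_infinite_isRoot
    have := H78.infinite_circle
    have h1 : (Set.univ : Set Circle).Infinite := Set.infinite_univ
    have h2 := h1.image (f := fun z : Circle => (z : ℂ)) (Circle.coe_injective.injOn)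
    refine h2.mono ?_
    rintro _ ⟨c, -, rfl⟩
    exact hev c
  have h2 : q.coeff 0 = ev z u (DK phi K D) := by
    rw [hq, finsetSum_coeff, ev_eq]
    have hsub : (DK phi K D).coeff.support ⊆ D.coeff.support := by
      intro a ha
      rw [Finsupp.mem_support_iff, DK_coeff] at ha
      rw [Finsupp.mem_support_iff]
      intro h0
      rw [h0, ite_self] at ha
      exact ha rfl
    have h5 : ∑ a ∈ (DK phi K D).coeff.support, evR z ((DK phi K D).coeff a) * (u a : ℂ) =
        ∑ a ∈ D.coeff.support, evR z ((DK phi K D).coeff a) * (u a : ℂ) := by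
      refine Finset.sum_subset hsub fun a _ ha => ?_
      rw [Finsupp.notMem_support_iff] at ha
      rw [ha, map_zero, zero_mul]
    rw [h5]
    refine Finset.sum_congr rfl fun a ha => ?_
    rw [coeff_monomial, DK_coeff]
    by_cases h3 : lamK phi K a = 0
    · rw [h3, Int.toNat_zero, if_pos rfl, if_pos rfl]
    · rw [if_neg h3, map_zero, zero_mul, if_neg]
      have := hnn a ha
      omega
  rw [← h2, hq0, coeff_zero]

/-! ## The normal form at a cycle -/

theorem smc (a : L) (q : RO ℤ) (G : AO ℤ L) (b : L) :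
    (AddMonoidAlgebra.single a q * G).coeff b = q * G.coeff (b - a) := by
  have h := AddMonoidAlgebra.coeff_single_mul_add G q a (b - a)
  rwa [add_sub_cancel] at h

open Classical in
/-- The part of `DK` killed by all `mu`. -/
noncomputable def Az (phi : L →+ (P → ℤ)) (K : Finset P) {k : ℕ} (mu : ZMod (k + 3) → L →+ ℤ)
    (D : AO ℤ L) : AO ℤ L :=
  AddMonoidAlgebra.ofCoeff ((DK phi K D).coeff.filter fun a => ∀ i, mu i a = 0)

open Classical in
/-- The coefficients of the first ray. -/
noncomputable def Bz (phi : L →+ (P → ℤ)) {k : ℕ} (Z : ZMod (k + 3) → L)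
    (mu : ZMod (k + 3) → L →+ ℤ) (e0 : (RO ℤ)ˣ) (D : AO ℤ L) : AO ℤ L :=
  AddMonoidAlgebra.single (-Z 0) (e0 : RO ℤ) *
    AddMonoidAlgebra.ofCoeff (D.coeff.filter fun a => Fre phi Z mu (a - Z 0))

open Classical in
theorem Az_coeff (phi : L →+ (P → ℤ)) (K : Finset P) {k : ℕ} (mu : ZMod (k + 3) → L →+ ℤ)
    (D : AO ℤ L) (a : L) : (Az phi K mu D).coeff a =
      if ∀ i, mu i a = 0 then (DK phi K D).coeff a else 0 := by
  unfold Az
  rw [AddMonoidAlgebra.coeff_ofCoeff, Finsupp.filter_apply]

open Classical in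
theorem Bz_coeff (phi : L →+ (P → ℤ)) {k : ℕ} (Z : ZMod (k + 3) → L)
    (mu : ZMod (k + 3) → L →+ ℤ) (e0 : (RO ℤ)ˣ) (D : AO ℤ L) (u : L) :
    (Bz phi Z mu e0 D).coeff u =
      if Fre phi Z mu u then (e0 : RO ℤ) * D.coeff (u + Z 0) else 0 := by
  unfold Bz
  rw [smc, AddMonoidAlgebra.coeff_ofCoeff, Finsupp.filter_apply, sub_neg_eq_add,
    add_sub_cancel_right, mul_ite, mul_zero]

theorem Bz_fre {phi : L →+ (P → ℤ)} {k : ℕ} {Z : ZMod (k + 3) → L}
    {mu : ZMod (k + 3) → L →+ ℤ} {e0 : (RO ℤ)ˣ} {D : AO ℤ L} {u : L}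
    (hu : u ∈ supp (Bz phi Z mu e0 D)) : Fre phi Z mu u := by
  classical
  by_contra h
  exact hu (by rw [Bz_coeff, if_neg h])

/-- The data of the ports: `K` contains a port of each `Z i`, `i ≠ 0, 1`, and no other ports. -/
structure KP (phi : L →+ (P → ℤ)) {k : ℕ} (Z : ZMod (k + 3) → L) (K : Finset P) : Prop where
  ex : ∀ i, i ≠ 0 → i ≠ 1 → ∃ p ∈ K, phi (Z i) p = 1
  mem : ∀ p ∈ K, ∃ i, i ≠ 0 ∧ i ≠ 1 ∧ phi (Z i) p = 1

theorem KP.free {phi : L →+ (P → ℤ)} {k : ℕ} {Z : ZMod (k + 3) → L} {K : Finset P}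
    (h : KP phi Z K) {mu : ZMod (k + 3) → L →+ ℤ} {u : L} (hu : Fre phi Z mu u) :
    ∀ p ∈ K, phi u p = 0 := by
  intro p hp
  obtain ⟨i, -, -, hi⟩ := h.mem p hp
  exact (hu.1 i p).resolve_right (by rw [hi]; norm_num)

theorem KP.pair {phi : L →+ (P → ℤ)} {D : AO ℤ L} {eta : L → (RO ℤ)ˣ} {k : ℕ}
    {Z : ZMod (k + 3) → L} {mu : ZMod (k + 3) → L →+ ℤ} {K : Finset P} (h : KP phi Z K)
    (hC : Cyc phi D eta k Z mu) : (∀ p ∈ K, phi (Z 0) p = 0) ∧ ∀ p ∈ K, phi (Z 1) p = 0 := by
  constructor
  · intro p hp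
    obtain ⟨i, hi0, -, hi⟩ := h.mem p hp
    exact (hC.dis 0 i hi0.symm p).resolve_right (by rw [hi]; norm_num)
  · intro p hp
    obtain ⟨i, -, hi1, hi⟩ := h.mem p hp
    exact (hC.dis 1 i hi1.symm p).resolve_right (by rw [hi]; norm_num)

theorem z01 {k : ℕ} : (0 : ZMod (k + 3)) ≠ 1 := by
  have : Fact (1 < k + 3) := ⟨by omega⟩
  exact zero_ne_one

/-- The values of `mu 0`, `mu 1` on `Z 0`, `Z 1`. -/
theorem mu_vals {phi : L →+ (P → ℤ)} {D : AO ℤ L} {eta : L → (RO ℤ)ˣ} {k : ℕ}
    {Z : ZMod (k + 3) → L} {mu : ZMod (k + 3) → L →+ ℤ} (hC : Cyc phi D eta k Z mu) :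
    mu 0 (Z 0) = 0 ∧ mu 0 (Z 1) = 1 ∧ mu 1 (Z 0) = -1 ∧ mu 1 (Z 1) = 0 := by
  have hz : ∀ i, mu i (Z i) = 0 := by
    intro i
    have : Fact (1 < k + 3) := ⟨by omega⟩
    refine hC.oth i (Z i) (hC.mtl i).r0 ?_ ?_
    · intro h
      have h1 := hC.inj h
      have h2 : (1 : ZMod (k + 3)) = 0 := by
        have h3 : i + 0 = i + 1 := by rw [add_zero]; exact h1
        exact (add_left_cancel h3).symm
      exact one_ne_zero h2
    · intro h
      have h1 := hC.inj h
      have h2 : (1 : ZMod (k + 3)) = 0 := by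
        have h3 : i - 0 = i - 1 := by rw [sub_zero]; exact h1
        exact (sub_right_injective h3).symm
      exact one_ne_zero h2
  refine ⟨hz 0, ?_, ?_, hz 1⟩
  · have := hC.nxt 0
    rwa [zero_add] at this
  · have := hC.prv 1
    rwa [sub_self] at this

open Classical in
/-- The decomposition of `DK`. -/
theorem DK_eq (hCn : CnfS) {phi : L →+ (P → ℤ)} {D : AO ℤ L} {eta : L → (RO ℤ)ˣ} {k : ℕ}
    {Z : ZMod (k + 3) → L} {mu : ZMod (k + 3) → L →+ ℤ} (hFP : FP phi D)
    (h2 : 2 ≤ Module.finrank ℤ L) (hC : Cyc phi D eta k Z mu)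
    (hV0 : ∀ i, D.coeff 0 + (eta (Z i) : RO ℤ) * D.coeff (Z i) ≠ 0) {K : Finset P}
    (hK : KP phi Z K) :
    DK phi K D = Az phi K mu D +
      (AddMonoidAlgebra.single (Z 0) (((eta (Z 0))⁻¹ : (RO ℤ)ˣ) : RO ℤ) *
          Bz phi Z mu (eta (Z 0)) D +
        AddMonoidAlgebra.single (Z 1) (((eta (Z 1))⁻¹ : (RO ℤ)ˣ) : RO ℤ) *
          Bz phi Z mu (eta (Z 0)) D -
        AddMonoidAlgebra.single (Z 0 + Z 1)
          ((((eta (Z 0))⁻¹ : (RO ℤ)ˣ) : RO ℤ) * (((eta (Z 1))⁻¹ : (RO ℤ)ˣ) : RO ℤ)) *
          Bz phi Z mu (eta (Z 0)) D) := by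
  obtain ⟨hnf, hflip⟩ := hCn ℤ P L phi D eta k Z mu hFP h2 hC hV0
  obtain ⟨m00, m01, m10, m11⟩ := mu_vals hC
  have hbin := hFP.dd.bin
  have hi0 : ((eta (Z 0) : (RO ℤ)ˣ) : RO ℤ) * (((eta (Z 0))⁻¹ : (RO ℤ)ˣ) : RO ℤ) = 1 :=
    Units.mul_inv _
  have hi1 : ((eta (Z 1) : (RO ℤ)ˣ) : RO ℤ) * (((eta (Z 1))⁻¹ : (RO ℤ)ˣ) : RO ℤ) = 1 :=
    Units.mul_inv _
  obtain ⟨i0, hi0'⟩ : ∃ x, x = (((eta (Z 0))⁻¹ : (RO ℤ)ˣ) : RO ℤ) := ⟨_, rfl⟩
  obtain ⟨i1, hi1'⟩ : ∃ x, x = (((eta (Z 1))⁻¹ : (RO ℤ)ˣ) : RO ℤ) := ⟨_, rfl⟩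
  rw [← hi0'] at hi0 ⊢
  rw [← hi1'] at hi1 ⊢
  -- the relations of a free exponent
  have hrel : ∀ u, Fre phi Z mu u →
      (eta (Z 1) : RO ℤ) * D.coeff (u + Z 1) = (eta (Z 0) : RO ℤ) * D.coeff (u + Z 0) ∧
      (eta (Z 0) : RO ℤ) * (eta (Z 1) : RO ℤ) * D.coeff (u + (Z 0 + Z 1)) =
        -((eta (Z 0) : RO ℤ) * D.coeff (u + Z 0)) := by
    intro u hu
    have hn1 : (0 : ZMod (k + 3)) - 1 ≠ 1 := by
      intro h
      have h3 : (1 : ZMod (k + 3)) + 1 = 0 := by
        rw [sub_eq_iff_eq_add] at h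
        exact h.symm
      have h4 : ((2 : ℕ) : ZMod (k + 3)) = 0 := by
        push_cast
        rw [← h3]
        ring
      rw [ZMod.natCast_eq_zero_iff] at h4
      exact absurd (Nat.le_of_dvd (by norm_num) h4) (by omega)
    have hn2 : (1 : ZMod (k + 3)) + 1 ≠ 0 := by
      intro h
      apply hn1
      rw [sub_eq_iff_eq_add]
      exact h.symm
    have f1 := hflip u {1} 0 hu (by rw [Finset.mem_singleton]; exact z01) (by
      rw [zero_add, Finset.mem_singleton, Finset.mem_singleton]
      exact ⟨fun _ => hn1, fun _ => rfl⟩)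
    have f2 := hflip u {0} 1 hu (by rw [Finset.mem_singleton]; exact z01.symm) (by
      rw [sub_self, Finset.mem_singleton, Finset.mem_singleton]
      exact ⟨fun h => absurd h hn2, fun h => absurd rfl h⟩)
    rw [Finset.sum_singleton, Finset.sum_insert (by rw [Finset.mem_singleton]; exact z01),
      Finset.sum_singleton] at f1
    rw [Finset.sum_singleton, Finset.sum_insert (by rw [Finset.mem_singleton]; exact z01.symm),
      Finset.sum_singleton] at f2
    rw [add_comm (Z 1) u, add_comm (Z 0 + Z 1) u] at f1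
    rw [add_comm (Z 0) u, add_comm (Z 1 + Z 0) u, add_comm (Z 1) (Z 0)] at f2
    constructor
    · linear_combination (eta (Z 1) : RO ℤ) * f1 - (eta (Z 0) : RO ℤ) * f2
    · linear_combination (eta (Z 0) : RO ℤ) * f2
  -- ports
  have hlam : ∀ u, Fre phi Z mu u → ∀ v, (∀ p ∈ K, phi v p = 0) → lamK phi K (u + v) = 0 := by
    intro u hu v hv
    rw [lamK_apply]
    refine Finset.sum_eq_zero fun p hp => ?_
    rw [map_add, Pi.add_apply, hK.free hu p hp, hv p hp, add_zero]
  obtain ⟨hp0, hp1⟩ := hK.pair hC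
  have hp01 : ∀ p ∈ K, phi (Z 0 + Z 1) p = 0 := fun p hp => by
    rw [map_add, Pi.add_apply, hp0 p hp, hp1 p hp, add_zero]
  apply AddMonoidAlgebra.ext
  apply Finsupp.ext
  intro a
  change (DK phi K D).coeff a = (Az phi K mu D).coeff a +
    ((AddMonoidAlgebra.single (Z 0) i0 * Bz phi Z mu (eta (Z 0)) D).coeff a +
      (AddMonoidAlgebra.single (Z 1) i1 * Bz phi Z mu (eta (Z 0)) D).coeff a -
      (AddMonoidAlgebra.single (Z 0 + Z 1) (i0 * i1) * Bz phi Z mu (eta (Z 0)) D).coeff a)
  rw [smc, smc, smc, Az_coeff, Bz_coeff, Bz_coeff, Bz_coeff]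
  by_cases f0 : Fre phi Z mu (a - Z 0)
  · -- `a = u + Z 0`
    have g1 : ¬ Fre phi Z mu (a - Z 1) := fun h => by
      have e1 := f0.2 0
      have e2 := h.2 0
      rw [map_sub] at e1 e2
      rw [m00] at e1
      rw [m01] at e2
      omega
    have g2 : ¬ Fre phi Z mu (a - (Z 0 + Z 1)) := fun h => by
      have e1 := f0.2 0
      have e2 := h.2 0
      rw [map_sub] at e1 e2
      rw [m00] at e1
      rw [map_add, m00, m01] at e2
      omega
    have g3 : ¬ ∀ i, mu i a = 0 := fun h => by
      have e1 := f0.2 1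
      rw [map_sub, m10, h 1] at e1
      omega
    have hl : lamK phi K a = 0 := by
      have := hlam _ f0 (Z 0) hp0
      rwa [sub_add_cancel] at this
    rw [if_neg g3, if_pos f0, if_neg g1, if_neg g2, DK_coeff, if_pos hl, sub_add_cancel]
    linear_combination -(D.coeff a) * hi0
  · by_cases f1 : Fre phi Z mu (a - Z 1)
    · have g2 : ¬ Fre phi Z mu (a - (Z 0 + Z 1)) := fun h => by
        have e1 := f1.2 1
        have e2 := h.2 1
        rw [map_sub] at e1 e2
        rw [m11] at e1
        rw [map_add, m10, m11] at e2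
        omega
      have g3 : ¬ ∀ i, mu i a = 0 := fun h => by
        have e1 := f1.2 0
        rw [map_sub, m01, h 0] at e1
        omega
      have hl : lamK phi K a = 0 := by
        have := hlam _ f1 (Z 1) hp1
        rwa [sub_add_cancel] at this
      have hr := (hrel _ f1).1
      rw [sub_add_cancel] at hr
      rw [if_neg g3, if_neg f0, if_pos f1, if_neg g2, DK_coeff, if_pos hl, ← hr]
      linear_combination -(D.coeff a) * hi1
    · by_cases f01 : Fre phi Z mu (a - (Z 0 + Z 1))
      · have g3 : ¬ ∀ i, mu i a = 0 := fun h => by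
          have e1 := f01.2 0
          rw [map_sub, map_add, m00, m01, h 0] at e1
          omega
        have hl : lamK phi K a = 0 := by
          have := hlam _ f01 (Z 0 + Z 1) hp01
          rwa [sub_add_cancel] at this
        have hr := (hrel _ f01).2
        rw [sub_add_cancel] at hr
        rw [if_neg g3, if_neg f0, if_neg f1, if_pos f01, DK_coeff, if_pos hl]
        linear_combination i0 * i1 * hr - (D.coeff a) * hi0 -
          (eta (Z 0) : RO ℤ) * i0 * D.coeff a * hi1
      · rw [if_neg f0, if_neg f1, if_neg f01]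
        by_cases g3 : ∀ i, mu i a = 0
        · rw [if_pos g3]
          ring
        · rw [if_neg g3]
          -- `a` is not an exponent of `DK`
          have hz : (DK phi K D).coeff a = 0 := by
            by_contra hne
            rw [DK_coeff] at hne
            split_ifs at hne with hl
            · rcases hnf a hne with h | ⟨T, u, hau, hu⟩
              · exact g3 h
              · have hT : ∀ i ∈ T, i = 0 ∨ i = 1 := by
                  intro i hi
                  by_contra hcon
                  push Not at hcon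
                  obtain ⟨p, hp, hip⟩ := hK.ex i hcon.1 hcon.2
                  have h4 := (lamK_zero (hbin a hne)).mp hl p hp
                  rw [hau, map_add, Pi.add_apply, map_sum, Finset.sum_apply,
                    hK.free hu p hp, add_zero,
                    Finset.sum_eq_single_of_mem i hi (fun j _ hji =>
                      (hC.dis j i hji p).resolve_right (by rw [hip]; norm_num)), hip] at h4
                  exact one_ne_zero h4
                by_cases t0 : (0 : ZMod (k + 3)) ∈ T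
                · by_cases t1 : (1 : ZMod (k + 3)) ∈ T
                  · have hTe : T = {0, 1} := by
                      ext i
                      rw [Finset.mem_insert, Finset.mem_singleton]
                      constructor
                      · exact hT i
                      · rintro (rfl | rfl)
                        · exact t0
                        · exact t1
                    rw [hTe, Finset.sum_pair z01] at hau
                    apply f01
                    rw [hau, add_sub_cancel_left]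
                    exact hu
                  · have hTe : T = {0} := by
                      ext i
                      rw [Finset.mem_singleton]
                      constructor
                      · intro hi
                        rcases hT i hi with h | h
                        · exact h
                        · exact absurd (h ▸ hi) t1
                      · rintro rfl
                        exact t0
                    rw [hTe, Finset.sum_singleton] at hau
                    apply f0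
                    rw [hau, add_sub_cancel_left]
                    exact hu
                · by_cases t1 : (1 : ZMod (k + 3)) ∈ T
                  · have hTe : T = {1} := by
                      ext i
                      rw [Finset.mem_singleton]
                      constructor
                      · intro hi
                        rcases hT i hi with h | h
                        · exact absurd (h ▸ hi) t0
                        · exact h
                      · rintro rfl
                        exact t1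
                    rw [hTe, Finset.sum_singleton] at hau
                    apply f1
                    rw [hau, add_sub_cancel_left]
                    exact hu
                  · have hTe : T = ∅ := by
                      ext i
                      constructor
                      · intro hi
                        rcases hT i hi with h | h
                        · exact absurd (h ▸ hi) t0
                        · exact absurd (h ▸ hi) t1
                      · intro hi
                        exact absurd hi (Finset.notMem_empty i)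
                    rw [hTe, Finset.sum_empty, zero_add] at hau
                    exact g3 (hau ▸ hu.2)
            · exact hne rfl
          rw [hz]
          ring

/-! ## The Hurwitz step -/

/-- The monomial of a ray in the units of its load. -/
noncomputable def yv (z : Circle) (e : (RO ℤ)ˣ) (S : L) (u : AddChar L Circle) : ℂ :=
  evR z ((e⁻¹ : (RO ℤ)ˣ) : RO ℤ) * (u S : ℂ)

theorem yv_norm (z : Circle) (e : (RO ℤ)ˣ) (S : L) (u : AddChar L Circle) : ‖yv z e S u‖ = 1 := by
  unfold yv
  rw [norm_mul, H36.norm_evR_unit z _ (e⁻¹).isUnit, Circle.norm_coe, one_mul]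

theorem yv_twist (z : Circle) (e : (RO ℤ)ˣ) (S : L) (u : AddChar L Circle) (lam : L →+ ℤ)
    (s : Circle) : yv z e S (twist u lam s) = yv z e S u * ((s ^ (lam S) : Circle) : ℂ) := by
  unfold yv
  rw [twist_apply, Circle.coe_mul, mul_assoc]

theorem circle_of {x : ℂ} (h : ‖x‖ = 1) : ∃ c : Circle, (c : ℂ) = x :=
  ⟨⟨x, by simpa [Submonoid.unitSphere, mem_sphere_zero_iff_norm] using h⟩, rfl⟩

/-- THE HURWITZ STEP. -/
theorem hur (hMu : MultiS) (hSS : StSpecS) (hE2 : E2S) (hCn : CnfS) {phi : L →+ (P → ℤ)}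
    {D : AO ℤ L} {eta : L → (RO ℤ)ˣ} {k : ℕ} {Z : ZMod (k + 3) → L}
    {mu : ZMod (k + 3) → L →+ ℤ} (hFP : FP phi D) (h2 : 2 ≤ Module.finrank ℤ L)
    (hC : Cyc phi D eta k Z mu)
    (hV0 : ∀ i, D.coeff 0 + (eta (Z i) : RO ℤ) * D.coeff (Z i) ≠ 0) {ι : Type} {r : ι → L}
    {cv : ι → Circle → ℂ} (hm0 : ∀ j, mu 0 (r j) = 0) (hm1 : ∀ j, mu 1 (r j) = 0)
    (hp : ∀ i, ∃ p, phi (Z i) p = 1 ∧ ∀ j, phi (r j) p = 0)
    (hV : ∀ (z : Circle) (u : AddChar L Circle), (∀ j, (u (r j) : ℂ) = cv j z) →
      yv z (eta (Z 0)) (Z 0) u = -(z : ℂ)⁻¹ → yv z (eta (Z 1)) (Z 1) u = z → ev z u D = 0)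
    (z : Circle) (hre : (z : ℂ).re ≠ 0) (him : (z : ℂ).im ≠ 0) (u : AddChar L Circle)
    (hu : ∀ j, (u (r j) : ℂ) = cv j z) : ev z u D = 0 := by
  classical
  have hD := hFP.dd
  obtain ⟨m00, m01, m10, m11⟩ := mu_vals hC
  -- the ports
  choose pt hpt hpr using hp
  obtain ⟨K, hKd⟩ : ∃ K : Finset P,
      K = (Finset.univ.filter fun i : ZMod (k + 3) => i ≠ 0 ∧ i ≠ 1).image pt := ⟨_, rfl⟩
  have hK : KP phi Z K := by
    constructor
    · intro i h0 h1
      refine ⟨pt i, ?_, hpt i⟩
      rw [hKd]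
      exact Finset.mem_image_of_mem pt (Finset.mem_filter.mpr ⟨Finset.mem_univ i, h0, h1⟩)
    · intro p hp
      rw [hKd, Finset.mem_image] at hp
      obtain ⟨i, hi, rfl⟩ := hp
      rw [Finset.mem_filter] at hi
      exact ⟨i, hi.2.1, hi.2.2, hpt i⟩
  have hKr : ∀ j, lamK phi K (r j) = 0 := by
    intro j
    rw [lamK_apply]
    refine Finset.sum_eq_zero fun p hp => ?_
    rw [hKd, Finset.mem_image] at hp
    obtain ⟨i, -, rfl⟩ := hp
    exact hpr i j
  obtain ⟨hK0, hK1⟩ := hK.pair hC
  have hlK0 : lamK phi K (Z 0) = 0 := by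
    rw [lamK_apply]
    exact Finset.sum_eq_zero hK0
  have hlK1 : lamK phi K (Z 1) = 0 := by
    rw [lamK_apply]
    exact Finset.sum_eq_zero hK1
  have hi0K : pt 0 ∉ K := fun h => by
    have := hK0 _ h
    rw [hpt 0] at this
    exact one_ne_zero this
  have hi1K : pt 1 ∉ K := fun h => by
    have := hK1 _ h
    rw [hpt 1] at this
    exact one_ne_zero this
  have h10 : phi (Z 1) (pt 0) = 0 :=
    (hC.dis 1 0 z01.symm (pt 0)).resolve_right (by rw [hpt 0]; norm_num)
  have h01 : phi (Z 0) (pt 1) = 0 :=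
    (hC.dis 0 1 z01 (pt 1)).resolve_right (by rw [hpt 1]; norm_num)
  have hne : pt 0 ≠ pt 1 := fun h => by
    rw [← h, hpt 0] at h01
    exact one_ne_zero h01
  -- the condition is not changed by twists
  have hcon : ∀ (v : AddChar L Circle) (lam : L →+ ℤ) (s : Circle), (∀ j, lam (r j) = 0) →
      (∀ j, (v (r j) : ℂ) = cv j z) → ∀ j, (twist v lam s (r j) : ℂ) = cv j z := by
    intro v lam s hl hv j
    rw [twist_apply, hl j, zpow_zero, mul_one]
    exact hv j
  obtain ⟨B, hB⟩ : ∃ B, B = Bz phi Z mu (eta (Z 0)) D := ⟨_, rfl⟩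
  obtain ⟨A, hA⟩ : ∃ A, A = Az phi K mu D := ⟨_, rfl⟩
  have hBm : ∀ i, ∀ a ∈ supp B, mu i a = 0 := fun i a ha => by
    rw [hB] at ha
    exact (Bz_fre ha).2 i
  have hBp : ∀ i, ∀ a ∈ supp B, co phi (pt i) a = 0 := fun i a ha => by
    rw [hB] at ha
    exact ((Bz_fre ha).1 i (pt i)).resolve_right (by rw [hpt i]; norm_num)
  have hAm : ∀ i, ∀ a ∈ supp A, mu i a = 0 := fun i a ha => by
    rw [hA] at ha
    by_contra h
    apply ha
    rw [Az_coeff, if_neg]
    exact fun h1 => h (h1 i)
  have hdec : ∀ v : AddChar L Circle, ev z v (DK phi K D) = ev z v A +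
      (yv z (eta (Z 0)) (Z 0) v + yv z (eta (Z 1)) (Z 1) v -
        yv z (eta (Z 0)) (Z 0) v * yv z (eta (Z 1)) (Z 1) v) * ev z v B := by
    intro v
    rw [DK_eq hCn hFP h2 hC hV0 hK, ← hA, ← hB, map_add, map_sub, map_add, map_mul, map_mul,
      map_mul, ev_single, ev_single, ev_single, map_mul, AddChar.map_add_eq_mul, Circle.coe_mul]
    unfold yv
    ring
  -- `DK` in terms of `B`
  have hform : ∀ v : AddChar L Circle, (∀ j, (v (r j) : ℂ) = cv j z) →
      ev z v (DK phi K D) = ev z v B * (((z : ℂ)⁻¹ - z) -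
        (1 - yv z (eta (Z 0)) (Z 0) v) * (1 - yv z (eta (Z 1)) (Z 1) v)) := by
    intro v hv
    obtain ⟨c0, hc0⟩ := circle_of (yv_norm z (eta (Z 0)) (Z 0) v)
    obtain ⟨c1, hc1⟩ := circle_of (yv_norm z (eta (Z 1)) (Z 1) v)
    obtain ⟨v', hv'⟩ : ∃ v', v' = twist (twist v (mu 1) (-(z * c0))) (mu 0) (z * c1⁻¹) :=
      ⟨_, rfl⟩
    have hy0 : yv z (eta (Z 0)) (Z 0) v' = -(z : ℂ)⁻¹ := by
      rw [hv', yv_twist, yv_twist, m00, m10, zpow_zero, zpow_neg_one, ← hc0, Circle.coe_one,
        mul_one, Circle.coe_inv, Circle.coe_neg, Circle.coe_mul]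
      have h3 := Circle.coe_ne_zero c0
      have h4 := Circle.coe_ne_zero z
      field_simp
    have hy1 : yv z (eta (Z 1)) (Z 1) v' = z := by
      rw [hv', yv_twist, yv_twist, m01, m11, zpow_zero, zpow_one, ← hc1, Circle.coe_one,
        mul_one, Circle.coe_mul, Circle.coe_inv]
      have h3 := Circle.coe_ne_zero c1
      field_simp
    have hv1 : ∀ j, (v' (r j) : ℂ) = cv j z := by
      rw [hv']
      exact hcon _ _ _ hm0 (hcon _ _ _ hm1 hv)
    have hz0 : ev z v' (DK phi K D) = 0 := by
      refine ev_K hD.bin fun c => ?_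
      refine hV z _ (hcon _ _ _ hKr hv1) ?_ ?_
      · rw [yv_twist, hlK0, zpow_zero, Circle.coe_one, mul_one, hy0]
      · rw [yv_twist, hlK1, zpow_zero, Circle.coe_one, mul_one, hy1]
    have hA' : ev z v' A = ev z v A := by
      rw [hv', ev_twist_inv (hAm 0), ev_twist_inv (hAm 1)]
    have hB' : ev z v' B = ev z v B := by
      rw [hv', ev_twist_inv (hBm 0), ev_twist_inv (hBm 1)]
    rw [hdec, hy0, hy1, hA', hB'] at hz0
    rw [hdec]
    have h4 : (z : ℂ)⁻¹ * z = 1 := inv_mul_cancel₀ (Circle.coe_ne_zero z)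
    linear_combination hz0 - ev z v B * h4
  -- the end
  have hz : evR z (D.coeff 0) ≠ 0 := (hE2 ℤ P L phi D hD h2).1 z
  refine hur_pt hMu hSS hD.inj hD.bin hD.st hz hre him u (K := K) hne hi0K hi1K
    (b := ev z u B) (yv_norm z (eta (Z 0)) (Z 0) u) (yv_norm z (eta (Z 1)) (Z 1) u) ?_
  intro c0 c1
  have hr0 : ∀ j, co phi (pt 0) (r j) = 0 := fun j => hpr 0 j
  have hr1 : ∀ j, co phi (pt 1) (r j) = 0 := fun j => hpr 1 j
  rw [hform _ (hcon _ _ _ hr1 (hcon _ _ _ hr0 hu)), ev_twist_inv (hBp 1), ev_twist_inv (hBp 0)]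
  have q00 : co phi (pt 0) (Z 0) = 1 := hpt 0
  have q01 : co phi (pt 1) (Z 0) = 0 := h01
  have q10 : co phi (pt 0) (Z 1) = 0 := h10
  have q11 : co phi (pt 1) (Z 1) = 1 := hpt 1
  rw [yv_twist, yv_twist, yv_twist, yv_twist, q00, q01, q10, q11]
  simp only [zpow_zero, zpow_one, Circle.coe_one, mul_one]
  ring

end

end Pool.Agent.B5.KO21
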