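import Pool.Agent.Lib.MP_b5021c_nt.KO.H21.HurC
import Pool.Agent.Lib.MP_b5021c_nt.KO.H57.T2w

/-!
# MP_b5021c_nt, all `θ`, K ODD, (O4), neutral cycles: `TerC` and the points `e^(i pi/3)` (helper21)

`G` with a closed triple `r i` (helper71's `Tri`).  `TerC` (helper57) holds if and only if `G`
vanishes at all points `z`, `u` with `u (r j) = e^(i pi/3) e_j(z)` (`Van`).
-/

namespace Pool.Agent.B5.KO21

set_option linter.unusedSectionVars false

open scoped LaurentPolynomial Topology
open Polynomial Pool.Agent.B5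
open Pool.Agent.B5.KO.H71
open Pool.Agent.B5.KO57 (TerC)

section

variable {P : Type} [Fintype P] [DecidableEq P] {L : Type} [AddCommGroup L] [Module.Free ℤ L]
  [Module.Finite ℤ L]

/-- The points where the monomials of the triple are `et` times their loads. -/
def Van (r : ZMod 3 → L) (e : ZMod 3 → (RO ℤ)ˣ) (et : ℂ) (z : Circle) (u : AddChar L Circle) :
    Prop := ∀ j, (u (r j) : ℂ) = et * evR z (e j : RO ℤ)

/-- The sum of the `r j` over `T`. -/
def sr (r : ZMod 3 → L) (T : Finset (ZMod 3)) : L := ∑ j ∈ T, r j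

variable {phi : L →+ (P → ℤ)} {G : AO ℤ L} {r : ZMod 3 → L} {e : ZMod 3 → (RO ℤ)ˣ}
  {mu : ZMod 3 → L →+ ℤ}

theorem univ3 : (Finset.univ : Finset (Finset (ZMod 3))) =
    {∅, {0}, {1}, {2}, {0, 1}, {0, 2}, {1, 2}, {0, 1, 2}} := by decide

theorem sum8 (F : Finset (ZMod 3) → ℂ) : ∑ T, F T =
    F ∅ + (F {0} + (F {1} + (F {2} + (F {0, 1} + (F {0, 2} + (F {1, 2} + F {0, 1, 2})))))) := by
  rw [univ3]
  rw [Finset.sum_insert (by decide), Finset.sum_insert (by decide), Finset.sum_insert (by decide),
    Finset.sum_insert (by decide), Finset.sum_insert (by decide), Finset.sum_insert (by decide),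
    Finset.sum_insert (by decide), Finset.sum_singleton]

/-- Ports of the triple. -/
theorem ports (h : Tri phi G r e mu) (hI : Function.Injective phi) :
    ∃ p : ZMod 3 → P, ∀ i j, phi (r j) (p i) = if i = j then 1 else 0 := by
  choose p hp using h.port hI
  refine ⟨p, fun i j => ?_⟩
  split_ifs with hij
  · rw [← hij]; exact hp i
  · exact (h.dis j i (fun h => hij h.symm) (p i)).resolve_right (by rw [hp i]; norm_num)

theorem phi_sr {p : ZMod 3 → P} (hp : ∀ i j, phi (r j) (p i) = if i = j then 1 else 0)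
    (T : Finset (ZMod 3)) (i : ZMod 3) : phi (sr r T) (p i) = if i ∈ T then 1 else 0 := by
  unfold sr
  rw [map_sum, Finset.sum_apply]
  simp_rw [hp]
  rw [Finset.sum_ite_eq]

/-- The subset is determined by the ports. -/
theorem sr_uniq {p : ZMod 3 → P} (hp : ∀ i j, phi (r j) (p i) = if i = j then 1 else 0)
    {u u' : L} {T T' : Finset (ZMod 3)} (hu : ∀ i, phi u (p i) = 0) (hu' : ∀ i, phi u' (p i) = 0)
    (h : u + sr r T = u' + sr r T') : T = T' ∧ u = u' := by
  have h1 : T = T' := by
    ext i
    have h2 := congrFun (congrArg phi h) (p i)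
    simp only [map_add, Pi.add_apply, hu, hu', phi_sr hp, zero_add] at h2
    constructor
    · intro hi
      by_contra hi'
      rw [if_pos hi, if_neg hi'] at h2
      exact one_ne_zero h2
    · intro hi
      by_contra hi'
      rw [if_pos hi, if_neg hi'] at h2
      exact one_ne_zero h2.symm
  refine ⟨h1, ?_⟩
  rw [h1] at h
  exact add_right_cancel h

/-- The eight coefficients of a free exponent. -/
theorem rel8 (h : Tri phi G r e mu) (hF1 : F1S) (hI : Function.Injective phi)
    (hb : ∀ a ∈ supp G, Bin phi a) {u : L} (hu : Fr phi r mu u) :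
    (e 1 : RO ℤ) * G.coeff (u + r 1) = (e 0 : RO ℤ) * G.coeff (u + r 0) ∧
    (e 2 : RO ℤ) * G.coeff (u + r 2) = (e 0 : RO ℤ) * G.coeff (u + r 0) ∧
    (e 0 : RO ℤ) * (e 1 : RO ℤ) * G.coeff (u + (r 0 + r 1)) =
      -((e 0 : RO ℤ) * G.coeff (u + r 0)) ∧
    (e 0 : RO ℤ) * (e 2 : RO ℤ) * G.coeff (u + (r 0 + r 2)) =
      -((e 0 : RO ℤ) * G.coeff (u + r 0)) ∧
    (e 1 : RO ℤ) * (e 2 : RO ℤ) * G.coeff (u + (r 1 + r 2)) =
      -((e 0 : RO ℤ) * G.coeff (u + r 0)) := by
  refine ⟨h.all_eq hF1 hI hb hu 1 0, h.all_eq hF1 hI hb hu 2 0, ?_, ?_, ?_⟩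
  · rw [← add_assoc]
    exact h.pair hF1 hI hb hu (by decide) 0
  · rw [← add_assoc]
    exact h.pair hF1 hI hb hu (by decide) 0
  · rw [← add_assoc]
    exact h.pair hF1 hI hb hu (by decide) 0

/-- The sum of the eight terms of a free exponent at a point of `Van`. -/
theorem sum_free (h : Tri phi G r e mu) (hF1 : F1S) (hI : Function.Injective phi)
    (hb : ∀ a ∈ supp G, Bin phi a) {u : L} (hu : Fr phi r mu u) {et : ℂ}
    (het : et ^ 2 - et + 1 = 0) {z : Circle} {v : AddChar L Circle} (hv : Van r e et z v) :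
    ∑ T, evR z (G.coeff (u + sr r T)) * (v (sr r T) : ℂ) =
      evR z (G.coeff u + 3 * ((e 0 : RO ℤ) * G.coeff (u + r 0)) -
        (e 0 : RO ℤ) * ((e 1 : RO ℤ) * ((e 2 : RO ℤ) * G.coeff (u + r 2 + r 0 + r 1)))) := by
  obtain ⟨r1, r2, r01, r02, r12⟩ := rel8 h hF1 hI hb hu
  have s0 : sr r ∅ = 0 := Finset.sum_empty
  have s1 : ∀ i, sr r {i} = r i := fun i => Finset.sum_singleton _ _
  have s01 : sr r {0, 1} = r 0 + r 1 := Finset.sum_pair (by decide)
  have s02 : sr r {0, 2} = r 0 + r 2 := Finset.sum_pair (by decide)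
  have s12 : sr r {1, 2} = r 1 + r 2 := Finset.sum_pair (by decide)
  have s012 : sr r {0, 1, 2} = r 0 + (r 1 + r 2) := by
    unfold sr
    rw [Finset.sum_insert (by decide), Finset.sum_pair (by decide)]
  rw [sum8, s0, s1, s1, s1, s01, s02, s12, s012, add_zero, AddChar.map_zero_eq_one]
  have hX : u + (r 0 + (r 1 + r 2)) = u + r 2 + r 0 + r 1 := by abel
  rw [hX]
  simp only [AddChar.map_add_eq_mul, Circle.coe_mul, Circle.coe_one, hv 0, hv 1, hv 2]
  have t1 := congrArg (evR z) r1
  have t2 := congrArg (evR z) r2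
  have t01 := congrArg (evR z) r01
  have t02 := congrArg (evR z) r02
  have t12 := congrArg (evR z) r12
  simp only [map_mul, map_neg] at t1 t2 t01 t02 t12
  simp only [map_sub, map_add, map_mul, map_ofNat]
  have het3 : et ^ 3 = -1 := by
    have : et ^ 3 + 1 = (et + 1) * (et ^ 2 - et + 1) := by ring
    rw [het, mul_zero] at this
    linear_combination this
  linear_combination et * t1 + et * t2 + et ^ 2 * t01 + et ^ 2 * t02 + et ^ 2 * t12 -
    3 * (evR z (e 0 : RO ℤ) * evR z (G.coeff (u + r 0))) * het +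
    (evR z (e 0 : RO ℤ) * evR z (e 1 : RO ℤ) * evR z (e 2 : RO ℤ) *
      evR z (G.coeff (u + r 2 + r 0 + r 1))) * het3

/-- A free exponent has no pivot ports. -/
theorem fr_port {p : ZMod 3 → P} (hp : ∀ i j, phi (r j) (p i) = if i = j then 1 else 0) {u : L}
    (hu : Fr phi r mu u) (i : ZMod 3) : phi u (p i) = 0 :=
  (hu.1 i (p i)).resolve_right (by rw [hp, if_pos rfl]; norm_num)

/-- Every exponent of a terminal element is `u + sr r T`, `u` free. -/
theorem ter_supp (h : Tri phi G r e mu) (hF1 : F1S) (hI : Function.Injective phi)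
    (hb : ∀ a ∈ supp G, Bin phi a) (hT : TerC phi G r e mu) {a : L} (ha : a ∈ supp G) :
    ∃ (u : L) (T : Finset (ZMod 3)), Fr phi r mu u ∧ a = u + sr r T := by
  rcases h.nf hF1 hI hb ha with h1 | ⟨i, u, hu, h1⟩ | ⟨i, u, hu, h1⟩
  · rcases hT.2 a ha h1 with h2 | ⟨u, hu, h2⟩
    · exact ⟨a, ∅, h2, by unfold sr; rw [Finset.sum_empty, add_zero]⟩
    · refine ⟨u, {0, 1, 2}, hu, ?_⟩
      unfold sr
      rw [Finset.sum_insert (by decide), Finset.sum_pair (by decide), h2]
      abel
  · exact ⟨u, {i}, hu, by unfold sr; rw [Finset.sum_singleton]; exact h1⟩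
  · refine ⟨u, {i + 1, i - 1}, hu, ?_⟩
    unfold sr
    rw [Finset.sum_pair (z3g i), h1, add_assoc]

open Classical in
/-- (H1) a terminal element vanishes at the points of `Van`. -/
theorem ter_van (h : Tri phi G r e mu) (hF1 : F1S) (hI : Function.Injective phi)
    (hb : ∀ a ∈ supp G, Bin phi a) (hT : TerC phi G r e mu) {et : ℂ}
    (het : et ^ 2 - et + 1 = 0) {z : Circle} {v : AddChar L Circle} (hv : Van r e et z v) :
    ev z v G = 0 := by
  obtain ⟨p, hp⟩ := ports h hI
  -- the free exponents
  obtain ⟨U, hU⟩ : ∃ U : Finset L, U = ((G.coeff.support ×ˢ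
      (Finset.univ : Finset (Finset (ZMod 3)))).image fun x => x.1 - sr r x.2).filter
        fun u => Fr phi r mu u := ⟨_, rfl⟩
  have hUf : ∀ u ∈ U, Fr phi r mu u := fun u hu => by
    rw [hU, Finset.mem_filter] at hu
    exact hu.2
  obtain ⟨W, hW⟩ : ∃ W : Finset L, W = (U ×ˢ (Finset.univ : Finset (Finset (ZMod 3)))).image
      fun x => x.1 + sr r x.2 := ⟨_, rfl⟩
  have hinj : Set.InjOn (fun x : L × Finset (ZMod 3) => x.1 + sr r x.2)
      (↑(U ×ˢ (Finset.univ : Finset (Finset (ZMod 3)))) : Set (L × Finset (ZMod 3))) := by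
    intro x hx y hy hxy
    rw [Finset.mem_coe, Finset.mem_product] at hx hy
    have h1 := sr_uniq hp (fr_port hp (hUf _ hx.1)) (fr_port hp (hUf _ hy.1)) hxy
    exact Prod.ext h1.2 h1.1
  have hsub : G.coeff.support ⊆ W := by
    intro a ha
    obtain ⟨u, T, hu, hau⟩ := ter_supp h hF1 hI hb hT (Finsupp.mem_support_iff.mp ha)
    rw [hW, Finset.mem_image]
    refine ⟨(u, T), Finset.mem_product.mpr ⟨?_, Finset.mem_univ T⟩, hau.symm⟩
    rw [hU, Finset.mem_filter, Finset.mem_image]
    refine ⟨⟨(a, T), Finset.mem_product.mpr ⟨ha, Finset.mem_univ T⟩, ?_⟩, hu⟩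
    change a - sr r T = u
    rw [hau, add_sub_cancel_right]
  have h1 : ev z v G = ∑ a ∈ W, evR z (G.coeff a) * (v a : ℂ) := by
    rw [ev_eq]
    refine Finset.sum_subset hsub fun a _ ha => ?_
    rw [Finsupp.notMem_support_iff] at ha
    rw [ha, map_zero, zero_mul]
  rw [h1, hW, Finset.sum_image hinj, Finset.sum_product]
  refine Finset.sum_eq_zero fun u hu => ?_
  have h2 := sum_free h hF1 hI hb (hUf u hu) het hv
  have h3 : ∑ T : Finset (ZMod 3), evR z (G.coeff (u + sr r T)) * (v (u + sr r T) : ℂ) =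
      (v u : ℂ) * ∑ T : Finset (ZMod 3), evR z (G.coeff (u + sr r T)) * (v (sr r T) : ℂ) := by
    rw [Finset.mul_sum]
    refine Finset.sum_congr rfl fun T _ => ?_
    rw [AddChar.map_add_eq_mul, Circle.coe_mul]
    ring
  rw [h3, h2, hT.1 u (hUf u hu)]
  rw [sub_self, map_zero, mul_zero]

/-- The projection along the triple. -/
def pj (phi : L →+ (P → ℤ)) (r : ZMod 3 → L) (p : ZMod 3 → P) (a : L) : L :=
  a - (co phi (p 0) a • r 0 + co phi (p 1) a • r 1 + co phi (p 2) a • r 2)

/-- A character adjusted to given values on the triple. -/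
noncomputable def adj (phi : L →+ (P → ℤ)) (r : ZMod 3 → L) (p : ZMod 3 → P)
    (u : AddChar L Circle) (c : ZMod 3 → Circle) : AddChar L Circle where
  toFun a := u (pj phi r p a) *
    (c 0 ^ (co phi (p 0) a) * c 1 ^ (co phi (p 1) a) * c 2 ^ (co phi (p 2) a))
  map_zero_eq_one' := by
    have h0 : pj phi r p 0 = 0 := by unfold pj; simp
    rw [h0, AddChar.map_zero_eq_one]
    simp
  map_add_eq_mul' a b := by
    have h0 : pj phi r p (a + b) = pj phi r p a + pj phi r p b := by
      unfold pj
      simp only [map_add, add_smul]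
      abel
    rw [h0, AddChar.map_add_eq_mul]
    simp only [map_add, zpow_add]
    exact mul_mul_mul_comm' _ _ _ _ _ _ _ _
where
  mul_mul_mul_comm' (x y a b a' b' a'' b'' : Circle) :
      x * y * (a * b * (a' * b') * (a'' * b'')) = x * (a * a' * a'') * (y * (b * b' * b'')) := by
    group
    simp only [mul_comm, mul_left_comm]


theorem pj_zero {p : ZMod 3 → P} {u : L} (hu : ∀ i, phi u (p i) = 0) : pj phi r p u = u := by
  have h1 : ∀ i, co phi (p i) u = 0 := hu
  unfold pj
  rw [h1, h1, h1, zero_smul, zero_smul, zero_smul, add_zero, add_zero, sub_zero]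

theorem pj_add {p : ZMod 3 → P} (a b : L) : pj phi r p (a + b) = pj phi r p a + pj phi r p b := by
  unfold pj
  simp only [map_add, add_smul]
  abel

theorem pj_r {p : ZMod 3 → P} (hp : ∀ i j, phi (r j) (p i) = if i = j then 1 else 0)
    (j : ZMod 3) : pj phi r p (r j) = 0 := by
  have h1 : ∀ i, co phi (p i) (r j) = if i = j then 1 else 0 := fun i => hp i j
  unfold pj
  rw [h1, h1, h1]
  rcases z3v j with rfl | rfl | rfl
  · rw [if_pos rfl, if_neg (by decide), if_neg (by decide), one_smul, zero_smul, zero_smul,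
      add_zero, add_zero, sub_self]
  · rw [if_neg (by decide), if_pos rfl, if_neg (by decide), one_smul, zero_smul, zero_smul,
      add_zero, zero_add, sub_self]
  · rw [if_neg (by decide), if_neg (by decide), if_pos rfl, one_smul, zero_smul, zero_smul,
      add_zero, zero_add, sub_self]

theorem pj_sr {p : ZMod 3 → P} (hp : ∀ i j, phi (r j) (p i) = if i = j then 1 else 0)
    (T : Finset (ZMod 3)) : pj phi r p (sr r T) = 0 := by
  classical
  unfold sr
  induction T using Finset.induction_on with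
  | empty => rw [Finset.sum_empty]; exact pj_zero (fun i => by rw [map_zero]; rfl)
  | insert a s ha ih => rw [Finset.sum_insert ha, pj_add, ih, pj_r hp, add_zero]

theorem adj_eq {p : ZMod 3 → P} (u : AddChar L Circle) (c : ZMod 3 → Circle) (a : L) :
    adj phi r p u c a = u (pj phi r p a) * adj phi r p 1 c a := by
  change u (pj phi r p a) * _ = u (pj phi r p a) * (1 * _)
  rw [one_mul]

theorem adj_r {p : ZMod 3 → P} (hp : ∀ i j, phi (r j) (p i) = if i = j then 1 else 0)
    (u : AddChar L Circle) (c : ZMod 3 → Circle) (j : ZMod 3) : adj phi r p u c (r j) = c j := by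
  have h1 : ∀ i, co phi (p i) (r j) = if i = j then 1 else 0 := fun i => hp i j
  change u (pj phi r p (r j)) * (c 0 ^ (co phi (p 0) (r j)) * c 1 ^ (co phi (p 1) (r j)) *
    c 2 ^ (co phi (p 2) (r j))) = c j
  rw [pj_r hp, AddChar.map_zero_eq_one, one_mul, h1, h1, h1]
  rcases z3v j with rfl | rfl | rfl
  · rw [if_pos rfl, if_neg (by decide), if_neg (by decide), zpow_one, zpow_zero, zpow_zero,
      mul_one, mul_one]
  · rw [if_neg (by decide), if_pos rfl, if_neg (by decide), zpow_one, zpow_zero, zpow_zero,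
      mul_one, one_mul]
  · rw [if_neg (by decide), if_neg (by decide), if_pos rfl, zpow_one, zpow_zero, zpow_zero,
      mul_one, one_mul]

theorem adj_zero {p : ZMod 3 → P} (c : ZMod 3 → Circle) {u : L} (hu : ∀ i, phi u (p i) = 0) :
    adj phi r p 1 c u = 1 := by
  have h1 : ∀ i, co phi (p i) u = 0 := hu
  change 1 * (c 0 ^ (co phi (p 0) u) * c 1 ^ (co phi (p 1) u) *
    c 2 ^ (co phi (p 2) u)) = 1
  rw [h1, h1, h1, zpow_zero, zpow_zero, zpow_zero, mul_one, mul_one, mul_one]

/-- An exponent is its projection plus the sum over a subset. -/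
theorem pj_back {p : ZMod 3 → P} {a : L} (ha : ∀ i, phi a (p i) = 0 ∨ phi a (p i) = 1) :
    a = pj phi r p a + sr r (Finset.univ.filter fun i => phi a (p i) = 1) := by
  have h1 : sr r (Finset.univ.filter fun i => phi a (p i) = 1) =
      co phi (p 0) a • r 0 + co phi (p 1) a • r 1 + co phi (p 2) a • r 2 := by
    unfold sr
    rw [Finset.sum_filter]
    have h2 : ∀ i, (if phi a (p i) = 1 then r i else 0) = co phi (p i) a • r i := by
      intro i
      change _ = phi a (p i) • r i
      rcases ha i with h | h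
      · rw [h, if_neg (by norm_num), zero_smul]
      · rw [h, if_pos rfl, one_smul]
    simp_rw [h2]
    exact Fin.sum_univ_three (fun i : Fin 3 => co phi (p i) a • r i)
  rw [h1]
  unfold pj
  abel

theorem pj_port {p : ZMod 3 → P} (hp : ∀ i j, phi (r j) (p i) = if i = j then 1 else 0)
    (a : L) (i : ZMod 3) : phi (pj phi r p a) (p i) = 0 := by
  have h1 : phi (pj phi r p a) (p i) = phi a (p i) - (phi a (p 0) * phi (r 0) (p i) +
      phi a (p 1) * phi (r 1) (p i) + phi a (p 2) * phi (r 2) (p i)) := by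
    unfold pj
    rw [map_sub, map_add, map_add, map_zsmul, map_zsmul, map_zsmul]
    rfl
  rw [h1, hp, hp, hp]
  rcases z3v i with rfl | rfl | rfl
  · rw [if_pos rfl, if_neg (by decide), if_neg (by decide)]
    ring
  · rw [if_neg (by decide), if_pos rfl, if_neg (by decide)]
    ring
  · rw [if_neg (by decide), if_neg (by decide), if_pos rfl]
    ring

open Classical in
/-- The sum of a class vanishes. -/
theorem van_cls {p : ZMod 3 → P} (hp : ∀ i j, phi (r j) (p i) = if i = j then 1 else 0)
    (hb : ∀ a ∈ supp G, Bin phi a) {z : Circle} {c : ZMod 3 → Circle}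
    (hV : ∀ u : AddChar L Circle, ev z (adj phi r p u c) G = 0) {u : L}
    (hu : ∀ i, phi u (p i) = 0) :
    ∑ T : Finset (ZMod 3), evR z (G.coeff (u + sr r T)) * (adj phi r p 1 c (sr r T) : ℂ) = 0 := by
  obtain ⟨f, hf⟩ : ∃ f : L → ℂ, ∀ a, f a = evR z (G.coeff a) * (adj phi r p 1 c a : ℂ) :=
    ⟨_, fun _ => rfl⟩
  obtain ⟨q, hq⟩ : ∃ q : CA L, q = ∑ a ∈ G.coeff.support,
      AddMonoidAlgebra.single (pj phi r p a) (f a) := ⟨_, rfl⟩
  have h0 : q = 0 := by
    apply H78.eq_zero_of_evC
    intro v
    have h1 := hV v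
    rw [ev_eq] at h1
    rw [hq, map_sum, ← h1]
    refine Finset.sum_congr rfl fun a _ => ?_
    have h2 : evC v (AddMonoidAlgebra.single (pj phi r p a) (f a)) =
        f a * (v (pj phi r p a) : ℂ) := by
      rw [evC_apply]
      exact Finsupp.sum_single_index (zero_mul _)
    rw [h2, hf, adj_eq v, Circle.coe_mul]
    ring
  have h1 : ∑ a ∈ G.coeff.support, (if pj phi r p a = u then f a else 0) = 0 := by
    have h2 : q.coeff u = ∑ a ∈ G.coeff.support, (if pj phi r p a = u then f a else 0) := by
      rw [hq]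
      have h3 : (∑ a ∈ G.coeff.support,
          (AddMonoidAlgebra.single (pj phi r p a) (f a) : CA L)).coeff u =
          ∑ a ∈ G.coeff.support, (AddMonoidAlgebra.single (pj phi r p a) (f a) : CA L).coeff u :=
        map_sum (⟨⟨fun x : CA L => x.coeff u, rfl⟩, fun x y => rfl⟩ : CA L →+ ℂ) _ _
      rw [h3]
      refine Finset.sum_congr rfl fun a _ => ?_
      exact Finsupp.single_apply
    rw [← h2, h0]
    rfl
  rw [← Finset.sum_filter] at h1
  have hinj : Set.InjOn (fun T : Finset (ZMod 3) => u + sr r T)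
      (↑(Finset.univ : Finset (Finset (ZMod 3))) : Set (Finset (ZMod 3))) := by
    intro x _ y _ hxy
    exact (sr_uniq hp hu hu hxy).1
  have h2 : ∑ T : Finset (ZMod 3), f (u + sr r T) = 0 := by
    rw [← Finset.sum_image (f := f) hinj, ← h1]
    symm
    refine Finset.sum_subset ?_ ?_
    · intro a ha
      rw [Finset.mem_filter] at ha
      rw [Finset.mem_image]
      refine ⟨Finset.univ.filter fun i => phi a (p i) = 1, Finset.mem_univ _, ?_⟩
      have h3 := pj_back (phi := phi) (r := r) (p := p)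
        (fun i => hb a (Finsupp.mem_support_iff.mp ha.1) (p i))
      rw [ha.2] at h3
      exact h3.symm
    · intro a ha ha'
      rw [Finset.mem_image] at ha
      obtain ⟨T, _, rfl⟩ := ha
      rw [Finset.mem_filter, not_and_or] at ha'
      rcases ha' with h3 | h3
      · rw [Finsupp.notMem_support_iff] at h3
        rw [hf, h3, map_zero, zero_mul]
      · exact absurd (by rw [pj_add, pj_sr hp, add_zero, pj_zero hu]) h3
  rw [← h2]
  refine Finset.sum_congr rfl fun T _ => ?_
  rw [hf, AddChar.map_add_eq_mul, adj_zero c hu, one_mul]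

theorem norm_et {et : ℂ} (het : et ^ 2 - et + 1 = 0) : ‖et‖ = 1 := by
  have h1 : et ^ 3 = -1 := by
    have : et ^ 3 + 1 = (et + 1) * (et ^ 2 - et + 1) := by ring
    rw [het, mul_zero] at this
    linear_combination this
  have h2 : ‖et‖ ^ 3 = 1 := by rw [← norm_pow, h1, norm_neg, norm_one]
  exact (pow_eq_one_iff_of_nonneg (norm_nonneg et) (by norm_num)).mp h2

/-- (H2) an element which vanishes at the points of `Van` is terminal. -/
theorem van_ter (h : Tri phi G r e mu) (hF1 : F1S) (hI : Function.Injective phi)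
    (hb : ∀ a ∈ supp G, Bin phi a) {et : ℂ} (het : et ^ 2 - et + 1 = 0) {F : Set Circle}
    (hF : F.Finite)
    (hV : ∀ z : Circle, z ∉ F → ∀ v : AddChar L Circle, Van r e et z v → ev z v G = 0) :
    TerC phi G r e mu := by
  obtain ⟨p, hp⟩ := ports h hI
  have hcl : ∀ z : Circle, z ∉ F → ∃ v : AddChar L Circle, Van r e et z v ∧
      ∀ u, (∀ i, phi u (p i) = 0) →
        ∑ T : Finset (ZMod 3), evR z (G.coeff (u + sr r T)) * (v (sr r T) : ℂ) = 0 := by
    intro z hz
    have hc : ∀ j, ∃ c : Circle, (c : ℂ) = et * evR z (e j : RO ℤ) := fun j =>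
      circle_of (by rw [norm_mul, norm_et het, H36.norm_evR_unit z _ (e j).isUnit, one_mul])
    choose c hc using hc
    have hVan : ∀ u : AddChar L Circle, Van r e et z (adj phi r p u c) := by
      intro u j
      rw [adj_r hp, hc]
    exact ⟨adj phi r p 1 c, hVan 1, fun u hu => van_cls hp hb (fun w => hV z hz _ (hVan w)) hu⟩
  refine ⟨fun u hu => ?_, fun b hbs hm => ?_⟩
  · have h1 : G.coeff u + 3 * ((e 0 : RO ℤ) * G.coeff (u + r 0)) -
        (e 0 : RO ℤ) * ((e 1 : RO ℤ) * ((e 2 : RO ℤ) * G.coeff (u + r 2 + r 0 + r 1))) = 0 := by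
      apply H78.eq_zero_of_evR _ F hF
      intro z hz
      obtain ⟨v, hv, hs⟩ := hcl z hz
      rw [← sum_free h hF1 hI hb hu het hv]
      exact hs u (fun i => fr_port hp hu i)
    linear_combination -h1
  · obtain ⟨u, hu⟩ : ∃ u, u = pj phi r p b := ⟨_, rfl⟩
    obtain ⟨S, hS⟩ : ∃ S : Finset (ZMod 3), S = Finset.univ.filter fun i => phi b (p i) = 1 :=
      ⟨_, rfl⟩
    have hbu : b = u + sr r S := by
      rw [hu, hS]
      exact pj_back (fun i => hb b hbs (p i))
    have hup : ∀ i, phi u (p i) = 0 := fun i => by rw [hu]; exact pj_port hp b i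
    -- the value of `mu` on a sum
    have hmS : ∀ (T : Finset (ZMod 3)) (i : ZMod 3), mu i (sr r T) =
        (if i + 1 ∈ T then 1 else 0) - (if i - 1 ∈ T then 1 else 0) := by
      intro T i
      have h1 : ∀ j, mu i (r j) = (if j = i + 1 then 1 else 0) - (if j = i - 1 then 1 else 0) := by
        intro j
        rcases z3h i j with rfl | rfl | rfl
        · rw [h.slf, if_neg (z3e _), if_neg (z3f _), sub_zero]
        · rw [h.nxt, if_pos rfl, if_neg (z3g _), sub_zero]
        · rw [h.prv, if_neg (fun h => z3g _ h.symm), if_pos rfl, zero_sub]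
      unfold sr
      rw [map_sum]
      simp_rw [h1]
      rw [Finset.sum_sub_distrib, Finset.sum_ite_eq', Finset.sum_ite_eq']
    have hfull : ∀ T : Finset (ZMod 3), (∀ i, mu i (sr r T) = 0) → T = ∅ ∨ T = {0, 1, 2} := by
      intro T hT
      have h1 : ∀ i : ZMod 3, (i + 1 ∈ T ↔ i - 1 ∈ T) := by
        intro i
        have h2 := hT i
        rw [hmS] at h2
        by_cases h3 : i + 1 ∈ T <;> by_cases h4 : i - 1 ∈ T
        · exact iff_of_true h3 h4
        · rw [if_pos h3, if_neg h4] at h2
          exact absurd h2 (by norm_num)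
        · rw [if_neg h3, if_pos h4] at h2
          exact absurd h2 (by norm_num)
        · exact iff_of_false h3 h4
      clear hT
      revert h1
      revert T
      decide
    have hd3 : ∀ {w : L}, (∀ q, phi w q = 0 ∨ phi w q = 1) →
        (∀ q, phi (w + sr r {0, 1, 2}) q = 0 ∨ phi (w + sr r {0, 1, 2}) q = 1) →
        ∀ i q, phi w q = 0 ∨ phi (r i) q = 0 := by
      intro w hw hw' i q
      have h1 : phi (w + sr r {0, 1, 2}) q = phi w q + (phi (r 0) q + (phi (r 1) q + phi (r 2) q)) := by
        unfold sr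
        rw [Finset.sum_insert (by decide), Finset.sum_pair (by decide)]
        simp only [map_add, Pi.add_apply]
      have h2 := hw' q
      rw [h1] at h2
      have h3 := h.bin 0 q
      have h4 := h.bin 1 q
      have h5 := h.bin 2 q
      rcases z3v i with rfl | rfl | rfl
      · rcases hw q with h6 | h6 <;> rcases h3 with h3 | h3 <;> omega
      · rcases hw q with h6 | h6 <;> rcases h4 with h4 | h4 <;> omega
      · rcases hw q with h6 | h6 <;> rcases h5 with h5 | h5 <;> omega
    have hS' : Fr phi r mu u → Fr phi r mu b ∨ ∃ u, Fr phi r mu u ∧ b = u + r 2 + r 0 + r 1 := by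
      intro hf
      rcases hfull S (fun i => by
        have h1 := hm i
        rw [hbu, map_add, hf.2 i, zero_add] at h1
        exact h1) with h1 | h1
      · left
        rw [hbu, h1]
        unfold sr
        rw [Finset.sum_empty, add_zero]
        exact hf
      · right
        refine ⟨u, hf, ?_⟩
        rw [hbu, h1]
        unfold sr
        rw [Finset.sum_insert (by decide), Finset.sum_pair (by decide)]
        abel
    by_cases hT : ∃ T, T ≠ S ∧ G.coeff (u + sr r T) ≠ 0
    · apply hS'
      obtain ⟨T, hTS, hT⟩ := hT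
      rcases h.nf hF1 hI hb hT with h1 | ⟨i, u', hu', h1⟩ | ⟨i, u', hu', h1⟩
      · -- the difference of the indicators is constant
        have h2 : ∀ i : ZMod 3, ((if i + 1 ∈ T then (1 : ℤ) else 0) - (if i - 1 ∈ T then 1 else 0)) =
            (if i + 1 ∈ S then 1 else 0) - (if i - 1 ∈ S then 1 else 0) := by
          intro i
          rw [← hmS, ← hmS]
          have h3 := h1 i
          have h4 := hm i
          rw [hbu, map_add] at h4
          rw [map_add] at h3
          linarith
        have h3 : (T = ∅ ∧ S = {0, 1, 2}) ∨ (T = {0, 1, 2} ∧ S = ∅) := by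
          clear hbu hS hT h1
          revert h2 hTS
          revert T S
          decide
        have hu0 : u + sr r (∅ : Finset (ZMod 3)) = u := by
          unfold sr
          rw [Finset.sum_empty, add_zero]
        rcases h3 with ⟨h3, h4⟩ | ⟨h3, h4⟩
        · subst h3 h4
          rw [hu0] at hT h1
          exact ⟨hd3 (hb u hT) (by rw [← hbu]; exact hb b hbs), h1⟩
        · subst h3 h4
          rw [hu0] at hbu
          refine ⟨hd3 (by rw [← hbu]; exact hb b hbs) (hb _ hT), ?_⟩
          rw [← hbu]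
          exact hm
      · have h2 : u + sr r T = u' + sr r {i} := by
          rw [h1]
          unfold sr
          rw [Finset.sum_singleton]
        rw [(sr_uniq hp hup (fun i => fr_port hp hu' i) h2).2]
        exact hu'
      · have h2 : u + sr r T = u' + sr r {i + 1, i - 1} := by
          rw [h1]
          unfold sr
          rw [Finset.sum_pair (z3g i), add_assoc]
        rw [(sr_uniq hp hup (fun i => fr_port hp hu' i) h2).2]
        exact hu'
    · exfalso
      push Not at hT
      apply hbs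
      apply H78.eq_zero_of_evR _ F hF
      intro z hz
      obtain ⟨v, hv, hs⟩ := hcl z hz
      have h1 := hs u hup
      rw [Finset.sum_eq_single S (fun T _ hTS => by rw [hT T hTS, map_zero, zero_mul])
        (fun h => absurd (Finset.mem_univ _) h), ← hbu] at h1
      rcases mul_eq_zero.mp h1 with h2 | h2
      · exact h2
      · exact absurd h2 (Circle.coe_ne_zero _)

end

end Pool.Agent.B5.KO21
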