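import Pool.Agent.Lib.MP_b5021c_nt.KO.H21.HurD
import Pool.Agent.Lib.MP_b5021c_nt.KO.H96.Mix
import Pool.Agent.Lib.MP_b5021c_nt.KO.H40.G4

/-!
# MP_b5021c_nt, all `θ`, K ODD, (O4), ALPHA: the row HUR (helper21)

Two neutral cycles `Z`, `Z'`, the second of length three.  If a closing of `D` at the ray `Z i`
with the load A (`hur_a`), or the double closing `V''` at a mutual pair of `Z` (`hur_v`, and its
mirror `hur_m`), is terminal at the image of `Z'`, then `D` is terminal at `Z'`.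
-/

namespace Pool.Agent.B5.KO21

set_option linter.unusedSectionVars false

open scoped LaurentPolynomial Topology
open Polynomial Pool.Agent.B5
open Pool.Agent.B5.KO.H71
open Pool.Agent.B5.KO57 (TerC)
open Pool.Agent.B5.KO.H96 (Alp)

section

variable {P : Type} [Fintype P] [DecidableEq P] {L : Type} [AddCommGroup L] [Module.Free ℤ L]
  [Module.Finite ℤ L]

/-- The restriction of a character to a kernel. -/
noncomputable def rs (k : L →+ ℤ) (u : AddChar L Circle) : AddChar (Ker k) Circle where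
  toFun a := u (a : L)
  map_zero_eq_one' := AddChar.map_zero_eq_one u
  map_add_eq_mul' _ _ := AddChar.map_add_eq_mul u _ _

theorem rs_apply (k : L →+ ℤ) (u : AddChar L Circle) (a : Ker k) : rs k u a = u (a : L) := rfl

theorem ac_zsmul (u : AddChar L Circle) (n : ℤ) (a : L) : u (n • a) = u a ^ n :=
  map_zpow u.toMonoidHom (Multiplicative.ofAdd a) n

/-- The value of a closing at a restricted character. -/
theorem ev_rs (k : L →+ ℤ) (S : L) (h : k S = 1) (eta : (RO ℤ)ˣ) (z : Circle)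
    (u : AddChar L Circle) (hu : (u S : ℂ) = evR z (eta : RO ℤ)) (F : AO ℤ L) :
    ev z (rs k u) (cl k S h eta F) = ev z u F := by
  rw [← H71.ev_extc k S h (rs k u) (u S) z eta hu F]
  have h1 : H71.extc k S h (rs k u) (u S) = u := by
    apply DFunLike.ext
    intro a
    change u (a - k a • S) * u S ^ (k a) = _
    rw [sub_eq_add_neg, ← neg_smul, AddChar.map_add_eq_mul, ac_zsmul, mul_assoc, ← zpow_add,
      neg_add_cancel, zpow_zero, mul_one]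
  rw [h1]

theorem evR_tA (z : Circle) : evR z ((tA : (RO ℤ)ˣ) : RO ℤ) = -(z : ℂ)⁻¹ := by
  unfold tA
  rw [H40.uT_val, map_mul, H07.evR_T, zpow_neg, zpow_one]
  have h : evR z (LaurentPolynomial.C (((-1 : ℤˣ) : ℤ)) : RO ℤ) = -1 := by
    have h1 : (LaurentPolynomial.C (((-1 : ℤˣ) : ℤ)) : RO ℤ) = -1 := by
      rw [Units.val_neg, Units.val_one, map_neg, map_one]
    rw [h1, map_neg, map_one]
  rw [h, neg_one_mul]

theorem evR_tC (z : Circle) : evR z ((tC : (RO ℤ)ˣ) : RO ℤ) = z := by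
  unfold tC
  rw [H40.uT_val, map_mul, H07.evR_T, zpow_one]
  have h : evR z (LaurentPolynomial.C (((1 : ℤˣ) : ℤ)) : RO ℤ) = 1 := by
    rw [Units.val_one, map_one, map_one]
  rw [h, one_mul]

/-- The value of the monomial from `yv`. -/
theorem of_yv {z : Circle} {e t : (RO ℤ)ˣ} {S : L} {u : AddChar L Circle}
    (h : yv z e S u = evR z (t : RO ℤ)) : (u S : ℂ) = evR z ((e * t : (RO ℤ)ˣ) : RO ℤ) := by
  unfold yv at h
  rw [Units.val_mul, map_mul, ← h, ← mul_assoc, ← map_mul, Units.mul_inv, map_one, one_mul]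

theorem et_ex : ∃ et : ℂ, et ^ 2 - et + 1 = 0 := by
  obtain ⟨s, hs⟩ : ∃ s : ℂ, s ^ 2 = -3 := IsAlgClosed.exists_pow_nat_eq (-3) (by norm_num)
  refine ⟨(1 + s) / 2, ?_⟩
  linear_combination (1 / 4) * hs

theorem evR_zpow (z : Circle) (e : (RO ℤ)ˣ) (n : ℤ) :
    evR z ((e ^ n : (RO ℤ)ˣ) : RO ℤ) = (evR z (e : RO ℤ)) ^ n := by
  have h1 : (Units.map (evR z).toMonoidHom (e ^ n) : ℂˣ) =
      (Units.map (evR z).toMonoidHom e) ^ n := map_zpow _ _ _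
  have h2 := congrArg (fun x : ℂˣ => (x : ℂ)) h1
  simp only [Units.val_zpow_eq_zpow_val] at h2
  exact h2

variable {phi : L →+ (P → ℤ)} {D : AO ℤ L} {q f f' : ℤ[X]} {a : ℝ} {j : ℕ}
  {eta : L → (RO ℤ)ˣ} {k : ℕ}

theorem v0_ne {C : Set L} (W : KcB phi D q f a j eta 1 C) {S : L} (hS : S ∈ C) :
    D.coeff 0 + (eta S : RO ℤ) * D.coeff S ≠ 0 := by
  obtain ⟨e, he, hR⟩ := W.rn S hS
  have h1 : D.coeff 0 + (eta S : RO ℤ) * D.coeff S = toLaurent (q + X * f) := by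
    rw [he, hR.D0, ld, Units.val_mul, mul_assoc, hR.DS, map_add, map_mul, H40.uT_val, toLaurent_X,
      Units.val_one, map_one, one_mul]
  rw [h1]
  intro h0
  have h2 : q + X * f = 0 := by
    apply toLaurent_injective
    rw [h0, map_zero]
  have h3 := congrArg (fun p : ℤ[X] => p.coeff 0) h2
  simp only [coeff_add, mul_coeff_zero, coeff_X_zero, zero_mul, add_zero, coeff_zero] at h3
  rw [hR.loc.q0] at h3
  exact one_ne_zero h3

/-- The points of the circle on the axes. -/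
theorem axes_fin : {z : Circle | (z : ℂ).re = 0 ∨ (z : ℂ).im = 0}.Finite := by
  have h1 : ({1, -1, Complex.I, -Complex.I} : Set ℂ).Finite := by simp
  refine (h1.preimage (f := fun z : Circle => (z : ℂ)) Circle.coe_injective.injOn).subset ?_
  intro z hz
  have h2 : (z : ℂ).re * (z : ℂ).re + (z : ℂ).im * (z : ℂ).im = 1 := by
    have := Circle.normSq_coe z
    rwa [Complex.normSq_apply] at this
  simp only [Set.mem_preimage, Set.mem_insert_iff, Set.mem_singleton_iff]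
  rcases hz with h | h
  · rw [h, zero_mul, zero_add] at h2
    rcases mul_self_eq_one_iff.mp h2 with h3 | h3
    · right; right; left
      exact Complex.ext (by rw [h, Complex.I_re]) (by rw [h3, Complex.I_im])
    · right; right; right
      exact Complex.ext (by rw [h, Complex.neg_re, Complex.I_re, neg_zero])
        (by rw [h3, Complex.neg_im, Complex.I_im])
  · rw [h, zero_mul, add_zero] at h2
    rcases mul_self_eq_one_iff.mp h2 with h3 | h3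
    · left
      exact Complex.ext (by rw [h3, Complex.one_re]) (by rw [h, Complex.one_im])
    · right; left
      exact Complex.ext (by rw [h3, Complex.neg_re, Complex.one_re])
        (by rw [h, Complex.neg_im, Complex.one_im, neg_zero])

/-- The core of the row: vanishing at the points of `V''`. -/
theorem hur_core (hMu : MultiS) (hSS : StSpecS) (hE2 : E2S) (hCn : CnfS) (hF1 : F1S)
    (hFP : FP phi D) (h2 : 2 ≤ Module.finrank ℤ L) {Y : ZMod (k + 3) → L}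
    {nu : ZMod (k + 3) → L →+ ℤ} (hC : Cyc phi D eta k Y nu)
    (hV0 : ∀ i, D.coeff 0 + (eta (Y i) : RO ℤ) * D.coeff (Y i) ≠ 0) {r : ZMod 3 → L}
    {e : ZMod 3 → (RO ℤ)ˣ} {mu' : ZMod 3 → L →+ ℤ} (T : Tri phi D r e mu')
    (hn0 : ∀ l, nu 0 (r l) = 0) (hn1 : ∀ l, nu 1 (r l) = 0)
    (hp : ∀ i, ∃ p, phi (Y i) p = 1 ∧ ∀ l, phi (r l) p = 0) {et : ℂ}
    (het : et ^ 2 - et + 1 = 0)
    (hV : ∀ (z : Circle) (u : AddChar L Circle), Van r e et z u →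
      (u (Y 0) : ℂ) = evR z ((eta (Y 0) * tA : (RO ℤ)ˣ) : RO ℤ) →
      (u (Y 1) : ℂ) = evR z ((eta (Y 1) * tC : (RO ℤ)ˣ) : RO ℤ) → ev z u D = 0) :
    TerC phi D r e mu' := by
  have hD := hFP.dd
  refine van_ter T hF1 hD.inj hD.bin het axes_fin ?_
  intro z hz u hu
  rw [Set.mem_ofPred_eq, not_or] at hz
  refine hur hMu hSS hE2 hCn hFP h2 hC hV0 (r := r)
    (cv := fun l z => et * evR z (e l : RO ℤ)) hn0 hn1 hp ?_ z hz.1 hz.2 u hu
  intro z u hu h0 h1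
  refine hV z u hu (of_yv ?_) (of_yv ?_)
  · rw [h0, evR_tA]
  · rw [h1, evR_tC]

/-- Multiplying by a constant does not matter for `Van`-points. -/
theorem ev_cst_zero {K : Type} [AddCommGroup K] [Module.Free ℤ K] [Module.Finite ℤ K]
    {z : Circle} {u : AddChar K Circle} {c : RO ℤ} {G : AO ℤ K} (h : ev z u G = 0) :
    ev z u (cst c * G) = 0 := by
  rw [map_mul, h, mul_zero]

/-- The points of `Van` under a closing. -/
theorem van_rs {r : ZMod 3 → L} {e e1 : ZMod 3 → (RO ℤ)ˣ} {et : ℂ} {z : Circle}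
    {u : AddChar L Circle} (hu : Van r e et z u) {kk : L →+ ℤ} {S : L} {t : (RO ℤ)ˣ}
    (hS : (u S : ℂ) = evR z (t : RO ℤ)) {r1 : ZMod 3 → Ker kk}
    (hr : ∀ l, ∃ n : ℤ, (r1 l : L) = r l - n • S ∧ e1 l = e l * t ^ (-n)) :
    Van r1 e1 et z (rs kk u) := by
  intro l
  obtain ⟨n, h1, h2⟩ := hr l
  rw [rs_apply, h1, h2, Units.val_mul, map_mul, evR_zpow, sub_eq_add_neg, ← neg_smul,
    AddChar.map_add_eq_mul, ac_zsmul, Circle.coe_mul, hu l, Circle.coe_zpow, hS]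
  ring

/-- `hn0`, `hn1`, `hV0` at a rotated or reflected cycle. -/
theorem Alp.v0 {Z : ZMod (k + 3) → L} {mu : ZMod (k + 3) → L →+ ℤ} {Z' : ZMod 3 → L}
    {mu' : ZMod 3 → L →+ ℤ} (A : Alp phi D q f f' a j eta k 0 Z mu Z' mu') (i : ZMod (k + 3)) :
    D.coeff 0 + (eta (Z i) : RO ℤ) * D.coeff (Z i) ≠ 0 := v0_ne A.w ⟨i, rfl⟩

/-- (HUR, E^A) a closing at a ray of `Z` with the load A is terminal at the image of `Z'`. -/
theorem hur_a (hMu : MultiS) (hSS : StSpecS) (hE2 : E2S) (hCn : CnfS) (hF1 : F1S)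
    {Z : ZMod (k + 3) → L} {mu : ZMod (k + 3) → L →+ ℤ} {Z' : ZMod 3 → L}
    {mu' : ZMod 3 → L →+ ℤ} (A : Alp phi D q f f' a j eta k 0 Z mu Z' mu')
    (hp : ∀ i, ∃ p, phi (Z i) p = 1 ∧ ∀ l, phi (Z' l) p = 0) (i : ZMod (k + 3)) {i0 : P}
    {h0 : co phi i0 (Z i) = 1} {e : (RO ℤ)ˣ} (he : eta (Z i) * tA = e) {c : RO ℤ}
    {G : AO ℤ (Ker (co phi i0))} (hc : cl (co phi i0) (Z i) h0 e D = cst c * G)
    {phi1 : Ker (co phi i0) →+ (P → ℤ)} (hI1 : Function.Injective phi1)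
    (hb1 : ∀ b ∈ supp G, Bin phi1 b) {r1 : ZMod 3 → Ker (co phi i0)}
    {e1 : ZMod 3 → (RO ℤ)ˣ} {mu1 : ZMod 3 → Ker (co phi i0) →+ ℤ} (T1 : Tri phi1 G r1 e1 mu1)
    (hr : ∀ l, ∃ n : ℤ, (r1 l : L) = Z' l - n • Z i ∧ e1 l = eta (Z' l) * e ^ (-n))
    (hter : TerC phi1 G r1 e1 mu1) : TerC phi D Z' (fun l => eta (Z' l)) mu' := by
  obtain ⟨et, het⟩ := et_ex
  have h2 : 2 ≤ Module.finrank ℤ L := by have := A.w.ko.rk; have := A.w.ko.j2; omega
  refine hur_core hMu hSS hE2 hCn hF1 A.w.ko.min.fp h2 (O4X.cyc_rot A.c i)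
    (fun m => Alp.v0 A _) (KO.H96.Alp.tri' hE2 A) (fun l => A.z _ l) (fun l => A.z _ l)
    (fun m => hp _) het ?_
  intro z u hu h0' _
  have h3 : (u (Z i) : ℂ) = evR z (e : RO ℤ) := by
    rw [zero_add] at h0'
    rw [h0', he]
  rw [← ev_rs (co phi i0) (Z i) h0 e z u h3 D, hc]
  exact ev_cst_zero (ter_van T1 hF1 hI1 hb1 hter het (van_rs hu h3 hr))

/-- The value at a point of the double closing. -/
theorem ev_two {Z' : ZMod 3 → L} {S S1 : L} (hF1 : F1S) {i0 : P} {h0 : co phi i0 S = 1}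
    {s t : (RO ℤ)ˣ} {T : Ker (co phi i0)} (hT : (T : L) = S1) {k1 : Ker (co phi i0) →+ ℤ}
    {h1 : k1 T = 1} {c : RO ℤ} {H : AO ℤ (Ker k1)}
    (hc : cl k1 T h1 t (cl (co phi i0) S h0 s D) = cst c * H)
    {phi2 : Ker k1 →+ (P → ℤ)} (hI2 : Function.Injective phi2)
    (hb2 : ∀ b ∈ supp H, Bin phi2 b) {r1 : ZMod 3 → Ker (co phi i0)}
    {e' e1 : ZMod 3 → (RO ℤ)ˣ} {r2 : ZMod 3 → Ker k1} {e2 : ZMod 3 → (RO ℤ)ˣ}
    {mu2 : ZMod 3 → Ker k1 →+ ℤ} (T2 : Tri phi2 H r2 e2 mu2)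
    (hr1 : ∀ l, ∃ n : ℤ, (r1 l : L) = Z' l - n • S ∧ e1 l = e' l * s ^ (-n))
    (hr2 : ∀ l, ∃ n : ℤ, (r2 l : Ker (co phi i0)) = r1 l - n • T ∧ e2 l = e1 l * t ^ (-n))
    (hter : TerC phi2 H r2 e2 mu2) {et : ℂ} (het : et ^ 2 - et + 1 = 0) {z : Circle}
    {u : AddChar L Circle} (hu : Van Z' e' et z u) (hS : (u S : ℂ) = evR z (s : RO ℤ))
    (hS1 : (u S1 : ℂ) = evR z (t : RO ℤ)) : ev z u D = 0 := by
  rw [← ev_rs (co phi i0) S h0 s z u hS D]
  have h2 : (rs (co phi i0) u T : ℂ) = evR z (t : RO ℤ) := by rw [rs_apply, hT, hS1]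
  rw [← ev_rs k1 T h1 t z (rs (co phi i0) u) h2, hc]
  exact ev_cst_zero (ter_van T2 hF1 hI2 hb2 hter het (van_rs (van_rs hu hS hr1) h2 hr2))

/-- (HUR, V'') the double closing at the mutual pair `Z i`, `Z (i + 1)` with the loads A, C is
terminal at the image of `Z'`. -/
theorem hur_v (hMu : MultiS) (hSS : StSpecS) (hE2 : E2S) (hCn : CnfS) (hF1 : F1S)
    {Z : ZMod (k + 3) → L} {mu : ZMod (k + 3) → L →+ ℤ} {Z' : ZMod 3 → L}
    {mu' : ZMod 3 → L →+ ℤ} (A : Alp phi D q f f' a j eta k 0 Z mu Z' mu')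
    (hp : ∀ i, ∃ p, phi (Z i) p = 1 ∧ ∀ l, phi (Z' l) p = 0) (i : ZMod (k + 3)) {i0 : P}
    {h0 : co phi i0 (Z i) = 1} {s t : (RO ℤ)ˣ} (hs : eta (Z i) * tA = s)
    (ht : eta (Z (i + 1)) * tC = t) {T : Ker (co phi i0)} (hT : (T : L) = Z (i + 1))
    {k1 : Ker (co phi i0) →+ ℤ} {h1 : k1 T = 1} {c : RO ℤ} {H : AO ℤ (Ker k1)}
    (hc : cl k1 T h1 t (cl (co phi i0) (Z i) h0 s D) = cst c * H)
    {phi2 : Ker k1 →+ (P → ℤ)} (hI2 : Function.Injective phi2)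
    (hb2 : ∀ b ∈ supp H, Bin phi2 b) {r1 : ZMod 3 → Ker (co phi i0)}
    {e1 : ZMod 3 → (RO ℤ)ˣ} {r2 : ZMod 3 → Ker k1} {e2 : ZMod 3 → (RO ℤ)ˣ}
    {mu2 : ZMod 3 → Ker k1 →+ ℤ} (T2 : Tri phi2 H r2 e2 mu2)
    (hr1 : ∀ l, ∃ n : ℤ, (r1 l : L) = Z' l - n • Z i ∧ e1 l = eta (Z' l) * s ^ (-n))
    (hr2 : ∀ l, ∃ n : ℤ, (r2 l : Ker (co phi i0)) = r1 l - n • T ∧ e2 l = e1 l * t ^ (-n))
    (hter : TerC phi2 H r2 e2 mu2) : TerC phi D Z' (fun l => eta (Z' l)) mu' := by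
  obtain ⟨et, het⟩ := et_ex
  have h2 : 2 ≤ Module.finrank ℤ L := by have := A.w.ko.rk; have := A.w.ko.j2; omega
  refine hur_core hMu hSS hE2 hCn hF1 A.w.ko.min.fp h2 (O4X.cyc_rot A.c i)
    (fun m => Alp.v0 A _) (KO.H96.Alp.tri' hE2 A) (fun l => A.z _ l) (fun l => A.z _ l)
    (fun m => hp _) het ?_
  intro z u hu h0' h1'
  rw [zero_add] at h0'
  rw [add_comm 1 i] at h1'
  exact ev_two hF1 hT hc hI2 hb2 T2 hr1 hr2 hter het hu (by rw [h0', hs]) (by rw [h1', ht])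

/-- (HUR, mirror of V'') the double closing at the mutual pair `Z (i + 1)`, `Z i` with the loads
A, C is terminal at the image of `Z'`. -/
theorem hur_m (hMu : MultiS) (hSS : StSpecS) (hE2 : E2S) (hCn : CnfS) (hF1 : F1S)
    {Z : ZMod (k + 3) → L} {mu : ZMod (k + 3) → L →+ ℤ} {Z' : ZMod 3 → L}
    {mu' : ZMod 3 → L →+ ℤ} (A : Alp phi D q f f' a j eta k 0 Z mu Z' mu')
    (hp : ∀ i, ∃ p, phi (Z i) p = 1 ∧ ∀ l, phi (Z' l) p = 0) (i : ZMod (k + 3)) {i0 : P}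
    {h0 : co phi i0 (Z (i + 1)) = 1} {s t : (RO ℤ)ˣ} (hs : eta (Z (i + 1)) * tA = s)
    (ht : eta (Z i) * tC = t) {T : Ker (co phi i0)} (hT : (T : L) = Z i)
    {k1 : Ker (co phi i0) →+ ℤ} {h1 : k1 T = 1} {c : RO ℤ} {H : AO ℤ (Ker k1)}
    (hc : cl k1 T h1 t (cl (co phi i0) (Z (i + 1)) h0 s D) = cst c * H)
    {phi2 : Ker k1 →+ (P → ℤ)} (hI2 : Function.Injective phi2)
    (hb2 : ∀ b ∈ supp H, Bin phi2 b) {r1 : ZMod 3 → Ker (co phi i0)}
    {e1 : ZMod 3 → (RO ℤ)ˣ} {r2 : ZMod 3 → Ker k1} {e2 : ZMod 3 → (RO ℤ)ˣ}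
    {mu2 : ZMod 3 → Ker k1 →+ ℤ} (T2 : Tri phi2 H r2 e2 mu2)
    (hr1 : ∀ l, ∃ n : ℤ, (r1 l : L) = Z' l - n • Z (i + 1) ∧ e1 l = eta (Z' l) * s ^ (-n))
    (hr2 : ∀ l, ∃ n : ℤ, (r2 l : Ker (co phi i0)) = r1 l - n • T ∧ e2 l = e1 l * t ^ (-n))
    (hter : TerC phi2 H r2 e2 mu2) : TerC phi D Z' (fun l => eta (Z' l)) mu' := by
  obtain ⟨et, het⟩ := et_ex
  have h2 : 2 ≤ Module.finrank ℤ L := by have := A.w.ko.rk; have := A.w.ko.j2; omega
  refine hur_core hMu hSS hE2 hCn hF1 A.w.ko.min.fp h2 (KO.H40.cyc_rev (O4X.cyc_rot A.c i))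
    (fun m => Alp.v0 A _) (KO.H96.Alp.tri' hE2 A)
    (fun l => by rw [AddMonoidHom.neg_apply, A.z, neg_zero])
    (fun l => by rw [AddMonoidHom.neg_apply, A.z, neg_zero]) (fun m => hp _) het ?_
  intro z u hu h0' h1'
  rw [sub_zero, add_comm 1 i] at h0'
  rw [sub_self, zero_add] at h1'
  exact ev_two hF1 hT hc hI2 hb2 T2 hr1 hr2 hter het hu (by rw [h0', hs]) (by rw [h1', ht])

/-- The condition of the ports, if the rays are disjoint. -/
theorem port_of {Z : ZMod (k + 3) → L} {mu : ZMod (k + 3) → L →+ ℤ} {Z' : ZMod 3 → L}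
    {mu' : ZMod 3 → L →+ ℤ} (A : Alp phi D q f f' a j eta k 0 Z mu Z' mu')
    (hd : ∀ i l p, phi (Z i) p = 0 ∨ phi (Z' l) p = 0) (i : ZMod (k + 3)) :
    ∃ p, phi (Z i) p = 1 ∧ ∀ l, phi (Z' l) p = 0 := by
  have hr := (A.c.mtl i).r0
  have hD := A.w.ko.min.fp.dd
  by_contra hcon
  push Not at hcon
  apply hr.2.1
  apply hD.inj
  rw [map_zero]
  ext p
  rcases hD.bin _ hr.1 p with h | h
  · exact h
  · exfalso
    obtain ⟨l, hl⟩ := hcon p h
    rcases hd i l p with h' | h'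
    · rw [h] at h'
      exact one_ne_zero h'
    · exact hl h'

end

end Pool.Agent.B5.KO21
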